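import Pool.Agent.H474R2.PG.Class

set_option autoImplicit false

/-! # Choice of a residue class for the small primes, for a family of polynomials -/

namespace Pool.Agent.TH532.CP

open Polynomial Finset
open Pool.Agent.H474R2.PG (rho PR Sg PS rho_shift rho_le_self)

open scoped Classical

lemma one_prime_w (p : ℕ) (hp : p.Prime) (K : Finset ℤ[X]) (w : ℤ[X] → ℝ) :
    ∃ a : ℤ, ∑ k ∈ K.filter (fun k => ¬ (p : ℤ) ∣ k.eval a), w k ≤
      ∑ k ∈ K, w k * (1 - (rho k p : ℝ) / p) := by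
  have hp0 : (0 : ℝ) < p := by exact_mod_cast hp.pos
  have hsum : ∑ a ∈ range p, ∑ k ∈ K.filter (fun k => ¬ (p : ℤ) ∣ k.eval (a : ℤ)), w k =
      ∑ k ∈ K, w k * ((p : ℝ) - rho k p) := by
    have h1 : ∀ a ∈ range p, ∑ k ∈ K.filter (fun k => ¬ (p : ℤ) ∣ k.eval (a : ℤ)), w k =
        ∑ k ∈ K, if ¬ (p : ℤ) ∣ k.eval (a : ℤ) then w k else 0 := by
      intro a _
      rw [sum_filter]
    rw [sum_congr rfl h1, sum_comm]
    refine sum_congr rfl fun k _ => ?_
    have h3 := card_filter_add_card_filter_not (s := range p)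
      (fun a : ℕ => (p : ℤ) ∣ k.eval (a : ℤ))
    rw [card_range] at h3
    have h4 : (rho k p : ℝ) + (((range p).filter
        (fun a : ℕ => ¬ (p : ℤ) ∣ k.eval (a : ℤ))).card : ℝ) = p := by
      unfold rho
      exact_mod_cast h3
    rw [← sum_filter, sum_const, nsmul_eq_mul]
    have h5 : (((range p).filter (fun a : ℕ => ¬ (p : ℤ) ∣ k.eval (a : ℤ))).card : ℝ) =
        (p : ℝ) - rho k p := by linarith
    rw [h5, mul_comm]
  have hne : (range p).Nonempty := nonempty_range_iff.2 hp.ne_zero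
  obtain ⟨a, -, ha⟩ := exists_le_of_sum_le (s := range p)
    (f := fun a : ℕ => ∑ k ∈ K.filter (fun k => ¬ (p : ℤ) ∣ k.eval (a : ℤ)), w k)
    (g := fun _ => ∑ k ∈ K, w k * (1 - (rho k p : ℝ) / p)) hne (by
      rw [hsum, sum_const, card_range, nsmul_eq_mul, mul_sum]
      apply le_of_eq
      refine sum_congr rfl fun k _ => ?_
      field_simp)
  exact ⟨a, ha⟩

lemma choose_all_w (S : Finset ℕ) (hS : ∀ p ∈ S, p.Prime) (K : Finset ℤ[X]) (w : ℤ[X] → ℝ) :
    ∃ a : ℕ → ℤ, ∑ k ∈ K.filter (fun k => ∀ p ∈ S, ¬ (p : ℤ) ∣ k.eval (a p)), w k ≤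
      ∑ k ∈ K, w k * ∏ p ∈ S, (1 - (rho k p : ℝ) / p) := by
  induction S using Finset.induction_on generalizing K w with
  | empty => exact ⟨fun _ => 0, by simp⟩
  | insert p S hpS ih =>
    have hp := hS p (mem_insert_self p S)
    obtain ⟨a0, ha0⟩ := one_prime_w p hp K (fun k => w k * ∏ q ∈ S, (1 - (rho k q : ℝ) / q))
    obtain ⟨a, ha⟩ := ih (fun q hq => hS q (mem_insert_of_mem hq))
      (K.filter (fun k => ¬ (p : ℤ) ∣ k.eval a0)) w
    refine ⟨Function.update a p a0, ?_⟩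
    have heq : K.filter (fun k => ∀ q ∈ insert p S,
        ¬ (q : ℤ) ∣ k.eval (Function.update a p a0 q)) =
        (K.filter (fun k => ¬ (p : ℤ) ∣ k.eval a0)).filter
          (fun k => ∀ q ∈ S, ¬ (q : ℤ) ∣ k.eval (a q)) := by
      rw [filter_filter]
      refine filter_congr (fun k _ => ?_)
      rw [forall_mem_insert, Function.update_self]
      refine and_congr_right fun _ => forall₂_congr fun q hq => ?_
      rw [Function.update_of_ne (by rintro rfl; exact hpS hq)]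
    rw [heq]
    refine ha.trans (ha0.trans (le_of_eq ?_))
    refine sum_congr rfl fun k _ => ?_
    rw [prod_insert hpS]
    ring

/-- choice of a residue class for the small primes -/
theorem class_choice_w (S : Finset ℕ) (hS : ∀ p ∈ S, p.Prime) (K : Finset ℤ[X]) :
    ∃ r : ℤ, ((K.filter (fun k => ∀ p ∈ S, ¬ (p : ℤ) ∣ k.eval r)).card : ℝ) ≤
      ∑ k ∈ K, ∏ p ∈ S, (1 - (rho k p : ℝ) / p) := by
  obtain ⟨a, ha⟩ := choose_all_w S hS K (fun _ => 1)
  obtain ⟨r, hr⟩ := Pool.Agent.H256R2.SC.crt_int S (fun p : ℕ => (p : ℤ))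
    (fun i hi j hj hij => by
      rw [Nat.isCoprime_iff_coprime]
      exact (Nat.coprime_primes (hS i hi) (hS j hj)).2 hij) a
  refine ⟨r, ?_⟩
  have h1 : K.filter (fun k => ∀ p ∈ S, ¬ (p : ℤ) ∣ k.eval r) =
      K.filter (fun k => ∀ p ∈ S, ¬ (p : ℤ) ∣ k.eval (a p)) := by
    refine filter_congr (fun k _ => ?_)
    refine forall₂_congr (fun p hp => not_congr ?_)
    exact dvd_iff_dvd_of_dvd_sub ((hr p hp).trans (Polynomial.sub_dvd_eval_sub r (a p) k))
  rw [h1]
  simpa using ha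

end Pool.Agent.TH532.CP
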