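import Mathlib
import Pool.Agent.H474R2.PG.Defs

set_option autoImplicit false

/-! # Resultants of two irreducible polynomials -/

namespace Pool.Agent.TH532.CP

open Polynomial Finset

open scoped Nat

lemma coprime_map (k l : ℤ[X]) (hk : Irreducible k) (hl : Irreducible l) (hkd : 0 < k.natDegree)
    (hkl : ¬ Associated k l) :
    IsCoprime (k.map (Int.castRingHom ℚ)) (l.map (Int.castRingHom ℚ)) := by
  have hkp : k.IsPrimitive := hk.isPrimitive hkd.ne'
  have hirr : Irreducible (k.map (Int.castRingHom ℚ)) :=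
    (IsPrimitive.Int.irreducible_iff_irreducible_map_cast hkp).1 hk
  rw [hirr.coprime_iff_not_dvd]
  intro hdvd
  have h1 : k ∣ l := (IsPrimitive.Int.dvd_iff_map_cast_dvd_map_cast k l hkp).2 hdvd
  exact hkl (hk.associated_of_dvd hl h1)

/-- the resultant of two non-associated irreducible polynomials -/
theorem res_pair (k l : ℤ[X]) (hk : Irreducible k) (hl : Irreducible l) (hkd : 0 < k.natDegree)
    (hkl : ¬ Associated k l) (H : ℤ)
    (hkH : ∀ i, |k.coeff i| ≤ H) (hlH : ∀ i, |l.coeff i| ≤ H) :
    ∃ N : ℤ, N ≠ 0 ∧ |N| ≤ (k.natDegree + l.natDegree)! * H ^ (k.natDegree + l.natDegree) ∧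
      ∀ (p n : ℤ), p ∣ k.eval n → p ∣ l.eval n → p ∣ N := by
  have hH0 : 0 ≤ H := (abs_nonneg _).trans (hkH 0)
  refine ⟨k.resultant l, ?_, ?_, ?_⟩
  · intro h0
    have h1 := resultant_map_map k l k.natDegree l.natDegree (Int.castRingHom ℚ)
    rw [h0, map_zero] at h1
    have h2 := resultant_ne_zero _ _ (coprime_map k l hk hl hkd hkl)
    have h3 : (k.map (Int.castRingHom ℚ)).natDegree = k.natDegree :=
      natDegree_map_eq_of_injective (RingHom.injective_int (Int.castRingHom ℚ)) k
    have h4 : (l.map (Int.castRingHom ℚ)).natDegree = l.natDegree :=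
      natDegree_map_eq_of_injective (RingHom.injective_int (Int.castRingHom ℚ)) l
    rw [h3, h4] at h2
    exact h2 h1
  · unfold resultant
    have h := Matrix.det_le (A := sylvester k l k.natDegree l.natDegree)
      (abv := (AbsoluteValue.abs : AbsoluteValue ℤ ℤ)) (x := H) (fun i j => by
        rw [AbsoluteValue.abs_apply]
        unfold sylvester
        rw [Matrix.of_apply]
        refine Fin.addCases (fun j₁ => ?_) (fun j₁ => ?_) j
        · rw [Fin.addCases_left]
          split_ifs
          · exact hlH _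
          · simpa using hH0
        · rw [Fin.addCases_right]
          split_ifs
          · exact hkH _
          · simpa using hH0)
    rw [AbsoluteValue.abs_apply, Fintype.card_fin] at h
    simpa [nsmul_eq_mul] using h
  · intro p n h1 h2
    obtain ⟨P, Q, -, -, hPQ⟩ := exists_mul_add_mul_eq_C_resultant k l le_rfl le_rfl
      (Or.inl hkd.ne')
    have h := congrArg (Polynomial.eval n) hPQ
    rw [eval_add, eval_mul, eval_mul, eval_C] at h
    rw [← h]
    exact dvd_add (h1.mul_right _) (h2.mul_right _)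

/-- number of prime divisors -/
lemma card_primeFactors_le (N : ℤ) (hN : N ≠ 0) :
    (N.natAbs.primeFactors.card : ℝ) * Real.log 2 ≤ Real.log |(N : ℝ)| := by
  have h1 : 2 ^ N.natAbs.primeFactors.card ≤ N.natAbs := by
    calc 2 ^ N.natAbs.primeFactors.card = ∏ _p ∈ N.natAbs.primeFactors, 2 := by
          rw [prod_const]
      _ ≤ ∏ p ∈ N.natAbs.primeFactors, p :=
          prod_le_prod' fun p hp => (Nat.prime_of_mem_primeFactors hp).two_le
      _ ≤ N.natAbs := Nat.le_of_dvd (Int.natAbs_pos.2 hN) (Nat.prod_primeFactors_dvd _)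
  have h2 : ((2 : ℝ)) ^ N.natAbs.primeFactors.card ≤ |(N : ℝ)| := by
    have : ((2 ^ N.natAbs.primeFactors.card : ℕ) : ℝ) ≤ (N.natAbs : ℝ) := by exact_mod_cast h1
    rw [Nat.cast_natAbs, Int.cast_abs] at this
    push_cast at this
    exact this
  have h3 := Real.log_le_log (by positivity) h2
  rwa [Real.log_pow] at h3

end Pool.Agent.TH532.CP
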