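import Pool.Agent.H474R2.PG.Class
import Pool.Agent.TH532.CP.Res

set_option autoImplicit false

/-! # The polynomials `g(aX+b)` and their normalised primitive parts -/

namespace Pool.Agent.TH532.CP

open Polynomial Finset
open Pool.Agent.H474R2.PG (rho dvd_iff_zmod card_range_zmod)

/-- `g(aX+b)` -/
noncomputable def lsub (g : ℤ[X]) (a b : ℤ) : ℤ[X] := g.comp (C a * X + C b)

/-- the normalised primitive part of `g(aX+b)` -/
noncomputable def col (g : ℤ[X]) (a b : ℤ) : ℤ[X] := normalize (lsub g a b).primPart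

lemma lsub_eval (g : ℤ[X]) (a b n : ℤ) : (lsub g a b).eval n = g.eval (a * n + b) := by
  unfold lsub
  rw [eval_comp]
  simp

lemma natDegree_lin (a b : ℤ) (ha : a ≠ 0) : (C a * X + C b : ℤ[X]).natDegree = 1 :=
  natDegree_linear ha

lemma lsub_natDegree (g : ℤ[X]) (a b : ℤ) (ha : a ≠ 0) :
    (lsub g a b).natDegree = g.natDegree := by
  unfold lsub
  rw [natDegree_comp, natDegree_lin a b ha, mul_one]

lemma irreducible_comp_lin {K : Type} [Field K] (G : K[X]) (hG : Irreducible G) (a b : K)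
    (ha : a ≠ 0) : Irreducible (G.comp (C a * X + C b)) := by
  let : Invertible a := invertibleOfNonzero ha
  have h := (MulEquiv.irreducible_iff (algEquivCMulXAddC a b).toMulEquiv).2 hG
  have e : (algEquivCMulXAddC a b).toMulEquiv G = G.comp (C a * X + C b) := by
    show (algEquivCMulXAddC a b) G = _
    rw [algEquivCMulXAddC_apply]
    rfl
  rwa [e] at h

lemma normalize_form (x : ℤ[X]) : ∃ s : ℤ, (s = 1 ∨ s = -1) ∧ normalize x = C s * x := by
  rw [normalize_apply]
  obtain ⟨r, hr, hr2⟩ := Polynomial.isUnit_iff.1 (normUnit x).isUnit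
  refine ⟨r, Int.isUnit_iff.1 hr, ?_⟩
  rw [← hr2, mul_comm]

lemma lsub_ne_zero (g : ℤ[X]) (a b : ℤ) (ha : a ≠ 0) (hg : 0 < g.natDegree) :
    lsub g a b ≠ 0 := by
  intro h
  have := lsub_natDegree g a b ha
  rw [h, natDegree_zero] at this
  omega

lemma content_ne_zero (g : ℤ[X]) (a b : ℤ) (ha : a ≠ 0) (hg : 0 < g.natDegree) :
    (lsub g a b).content ≠ 0 := by
  rw [Ne, content_eq_zero_iff]
  exact lsub_ne_zero g a b ha hg

/-- the relation between the value of `g(aX+b)` and the value of the colour -/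
lemma col_form (g : ℤ[X]) (a b : ℤ) : ∃ s : ℤ, (s = 1 ∨ s = -1) ∧
    lsub g a b = C ((lsub g a b).content * s) * col g a b := by
  obtain ⟨s, hs, h⟩ := normalize_form (lsub g a b).primPart
  refine ⟨s, hs, ?_⟩
  unfold col
  rw [h, ← mul_assoc, ← C_mul]
  have h2 : s * s = 1 := by rcases hs with rfl | rfl <;> norm_num
  rw [mul_assoc (lsub g a b).content, h2, mul_one]
  exact (lsub g a b).eq_C_content_mul_primPart

lemma col_natDegree (g : ℤ[X]) (a b : ℤ) (ha : a ≠ 0) : (col g a b).natDegree = g.natDegree := by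
  obtain ⟨s, hs, h⟩ := normalize_form (lsub g a b).primPart
  unfold col
  rw [h, natDegree_C_mul (by rcases hs with rfl | rfl <;> norm_num), natDegree_primPart,
    lsub_natDegree g a b ha]

lemma col_irreducible (g : ℤ[X]) (hg : Irreducible g) (hd : 0 < g.natDegree) (a b : ℤ)
    (ha : a ≠ 0) : Irreducible (col g a b) := by
  have hprim : g.IsPrimitive := hg.isPrimitive hd.ne'
  have hirr : Irreducible (g.map (Int.castRingHom ℚ)) :=
    (IsPrimitive.Int.irreducible_iff_irreducible_map_cast hprim).1 hg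
  have h1 : (lsub g a b).map (Int.castRingHom ℚ) =
      (g.map (Int.castRingHom ℚ)).comp (C (a : ℚ) * X + C (b : ℚ)) := by
    unfold lsub
    rw [Polynomial.map_comp]
    simp
  have h2 : Irreducible ((lsub g a b).map (Int.castRingHom ℚ)) := by
    rw [h1]
    exact irreducible_comp_lin _ hirr _ _ (by exact_mod_cast ha)
  have h3 : Irreducible ((lsub g a b).primPart.map (Int.castRingHom ℚ)) := by
    have e : (lsub g a b).map (Int.castRingHom ℚ) =
        C (((lsub g a b).content : ℤ) : ℚ) * (lsub g a b).primPart.map (Int.castRingHom ℚ) := by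
      conv_lhs => rw [(lsub g a b).eq_C_content_mul_primPart]
      rw [Polynomial.map_mul, map_C]
      simp
    have hu : IsUnit (C (((lsub g a b).content : ℤ) : ℚ)) := by
      rw [isUnit_C, isUnit_iff_ne_zero]
      exact_mod_cast content_ne_zero g a b ha hd
    rw [e] at h2
    exact (irreducible_isUnit_mul hu).1 h2
  have h4 : Irreducible (lsub g a b).primPart :=
    (IsPrimitive.Int.irreducible_iff_irreducible_map_cast (isPrimitive_primPart _)).2 h3
  exact (associated_normalize _).irreducible h4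

lemma col_dvd (g : ℤ[X]) (a b m n : ℤ) (h : m ∣ (col g a b).eval n) :
    m ∣ g.eval (a * n + b) := by
  obtain ⟨s, hs, e⟩ := col_form g a b
  rw [← lsub_eval, e, eval_mul, eval_C]
  exact h.mul_left _

lemma col_eq_of_associated (g g' : ℤ[X]) (a b a' b' : ℤ)
    (h : Associated (col g a b) (col g' a' b')) : col g a b = col g' a' b' := by
  unfold col at h ⊢
  exact h.eq_of_normalized (normalize_idem _) (normalize_idem _)

/-- a prime which does not divide `a` does not divide the content -/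
lemma not_dvd_content (g : ℤ[X]) (hg : Irreducible g) (hd : 0 < g.natDegree) (a b : ℤ)
    (p : ℕ) (hp : p.Prime) (hpa : ¬ (p : ℤ) ∣ a) : ¬ (p : ℤ) ∣ (lsub g a b).content := by
  have : Fact p.Prime := ⟨hp⟩
  intro h
  rw [dvd_content_iff_C_dvd] at h
  have h1 : (lsub g a b).map (Int.castRingHom (ZMod p)) = 0 := by
    obtain ⟨q, hq⟩ := h
    rw [hq, Polynomial.map_mul, map_C]
    simp
  have h2 : (lsub g a b).map (Int.castRingHom (ZMod p)) =
      (g.map (Int.castRingHom (ZMod p))).comp (C (a : ZMod p) * X + C (b : ZMod p)) := by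
    unfold lsub
    rw [Polynomial.map_comp]
    simp
  have ha : (a : ZMod p) ≠ 0 := by
    rwa [Ne, ZMod.intCast_zmod_eq_zero_iff_dvd]
  let : Invertible (a : ZMod p) := invertibleOfNonzero ha
  have h3 : g.map (Int.castRingHom (ZMod p)) = 0 := by
    have e : (algEquivCMulXAddC (a : ZMod p) (b : ZMod p)) (g.map (Int.castRingHom (ZMod p))) =
        0 := by
      rw [algEquivCMulXAddC_apply, ← h1, h2]
      rfl
    exact (map_eq_zero_iff _ (AlgEquiv.injective _)).1 e
  have h4 : C (p : ℤ) ∣ g := by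
    rw [C_dvd_iff_dvd_coeff]
    intro i
    have := congrArg (fun q => q.coeff i) h3
    simp only [coeff_map, coeff_zero, eq_intCast] at this
    rwa [ZMod.intCast_zmod_eq_zero_iff_dvd] at this
  have h5 := (hg.isPrimitive hd.ne') _ h4
  rw [Int.isUnit_iff] at h5
  have := hp.one_lt
  omega

lemma col_dvd_iff (g : ℤ[X]) (hg : Irreducible g) (hd : 0 < g.natDegree) (a b : ℤ)
    (p : ℕ) (hp : p.Prime) (hpa : ¬ (p : ℤ) ∣ a) (n : ℤ) :
    (p : ℤ) ∣ (col g a b).eval n ↔ (p : ℤ) ∣ g.eval (a * n + b) := by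
  refine ⟨col_dvd g a b _ n, fun h => ?_⟩
  obtain ⟨s, hs, e⟩ := col_form g a b
  rw [← lsub_eval, e, eval_mul, eval_C] at h
  rcases (Nat.prime_iff_prime_int.1 hp).dvd_or_dvd h with h1 | h1
  · exfalso
    apply not_dvd_content g hg hd a b p hp hpa
    rcases hs with rfl | rfl
    · simpa using h1
    · simpa using h1
  · exact h1

/-- the number of roots of the colour modulo `p` -/
theorem rho_col (g : ℤ[X]) (hg : Irreducible g) (hd : 0 < g.natDegree) (a b : ℤ)
    (p : ℕ) (hp : p.Prime) (hpa : ¬ (p : ℤ) ∣ a) : rho (col g a b) p = rho g p := by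
  classical
  have : Fact p.Prime := ⟨hp⟩
  have : NeZero p := ⟨hp.ne_zero⟩
  have ha : (a : ZMod p) ≠ 0 := by
    rwa [Ne, ZMod.intCast_zmod_eq_zero_iff_dvd]
  unfold rho
  have h1 : ((Finset.range p).filter (fun x : ℕ => (p : ℤ) ∣ (col g a b).eval (x : ℤ))) =
      ((Finset.range p).filter (fun x : ℕ =>
        (g.map (Int.castRingHom (ZMod p))).eval ((a : ZMod p) * (x : ZMod p) + (b : ZMod p)) = 0))
      := by
    refine Finset.filter_congr (fun x _ => ?_)
    rw [col_dvd_iff g hg hd a b p hp hpa, dvd_iff_zmod]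
    push_cast
    rfl
  have h2 : ((Finset.range p).filter (fun x : ℕ => (p : ℤ) ∣ g.eval (x : ℤ))) =
      ((Finset.range p).filter (fun x : ℕ =>
        (g.map (Int.castRingHom (ZMod p))).eval (x : ZMod p) = 0)) := by
    refine Finset.filter_congr (fun x _ => ?_)
    rw [dvd_iff_zmod]
    push_cast
    rfl
  rw [h1, h2, card_range_zmod p
      (fun x => (g.map (Int.castRingHom (ZMod p))).eval ((a : ZMod p) * x + (b : ZMod p)) = 0),
    card_range_zmod p (fun x => (g.map (Int.castRingHom (ZMod p))).eval x = 0)]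
  refine Finset.card_bij (fun x _ => (a : ZMod p) * x + (b : ZMod p)) ?_ ?_ ?_
  · intro x hx
    rw [Finset.mem_filter] at hx
    exact Finset.mem_filter.2 ⟨Finset.mem_univ _, hx.2⟩
  · intro x _ y _ h
    exact mul_left_cancel₀ ha (add_right_cancel h)
  · intro y hy
    rw [Finset.mem_filter] at hy
    refine ⟨(a : ZMod p)⁻¹ * (y - (b : ZMod p)), Finset.mem_filter.2 ⟨Finset.mem_univ _, ?_⟩, ?_⟩
    · rw [← mul_assoc, mul_inv_cancel₀ ha, one_mul, sub_add_cancel]
      exact hy.2
    · rw [← mul_assoc, mul_inv_cancel₀ ha, one_mul, sub_add_cancel]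

/-- coefficients of powers of a linear polynomial -/
lemma coeff_lin_pow (a b : ℤ) (j i : ℕ) :
    |((C a * X + C b : ℤ[X]) ^ j).coeff i| ≤ (|a| + |b|) ^ j := by
  induction j generalizing i with
  | zero =>
    rw [pow_zero, pow_zero, coeff_one]
    split_ifs <;> simp
  | succ j ih =>
    have h0 : 0 ≤ |a| + |b| := by positivity
    have e : (C a * X + C b : ℤ[X]) ^ (j + 1) =
        C a * ((C a * X + C b) ^ j * X) + C b * (C a * X + C b) ^ j := by ring
    rw [e, coeff_add, coeff_C_mul, coeff_C_mul]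
    have h1 : |((C a * X + C b : ℤ[X]) ^ j * X).coeff i| ≤ (|a| + |b|) ^ j := by
      cases i with
      | zero => rw [coeff_mul_X_zero, abs_zero]; positivity
      | succ i => rw [coeff_mul_X]; exact ih i
    calc |a * ((C a * X + C b : ℤ[X]) ^ j * X).coeff i + b * ((C a * X + C b) ^ j).coeff i|
        ≤ |a| * |((C a * X + C b : ℤ[X]) ^ j * X).coeff i| +
          |b| * |((C a * X + C b : ℤ[X]) ^ j).coeff i| := by
          rw [← abs_mul, ← abs_mul]
          exact abs_add_le _ _
      _ ≤ |a| * (|a| + |b|) ^ j + |b| * (|a| + |b|) ^ j := by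
          gcongr
          exact ih i
      _ = (|a| + |b|) ^ (j + 1) := by ring

/-- the sum of the absolute values of the coefficients -/
def nrm (g : ℤ[X]) : ℤ := ∑ j ∈ range (g.natDegree + 1), |g.coeff j|

lemma coeff_lsub_le (g : ℤ[X]) (a b E : ℤ) (hE : |a| + |b| ≤ E) (hE1 : 1 ≤ E) (i : ℕ) :
    |(lsub g a b).coeff i| ≤ nrm g * E ^ g.natDegree := by
  unfold lsub nrm
  rw [Polynomial.comp, eval₂_eq_sum_range, finsetSum_coeff, sum_mul]
  refine (abs_sum_le_sum_abs _ _).trans (sum_le_sum fun j hj => ?_)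
  rw [coeff_C_mul, abs_mul]
  refine mul_le_mul_of_nonneg_left ?_ (abs_nonneg _)
  have hj' : j ≤ g.natDegree := by rw [mem_range] at hj; omega
  calc |((C a * X + C b : ℤ[X]) ^ j).coeff i| ≤ (|a| + |b|) ^ j := coeff_lin_pow a b j i
    _ ≤ E ^ j := pow_le_pow_left₀ (by positivity) hE j
    _ ≤ E ^ g.natDegree := pow_le_pow_right₀ hE1 hj'

lemma coeff_col_le (g : ℤ[X]) (hd : 0 < g.natDegree) (a b E : ℤ) (ha : a ≠ 0)
    (hE : |a| + |b| ≤ E) (hE1 : 1 ≤ E) (i : ℕ) :
    |(col g a b).coeff i| ≤ nrm g * E ^ g.natDegree := by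
  refine le_trans ?_ (coeff_lsub_le g a b E hE hE1 i)
  obtain ⟨s, hs, e⟩ := col_form g a b
  have hc := content_ne_zero g a b ha hd
  have h1 : (1 : ℤ) ≤ |(lsub g a b).content * s| := by
    rw [abs_mul]
    have h2 : |s| = 1 := by rcases hs with rfl | rfl <;> norm_num
    rw [h2, mul_one]
    exact Int.one_le_abs hc
  calc |(col g a b).coeff i| ≤ |(lsub g a b).content * s| * |(col g a b).coeff i| :=
        le_mul_of_one_le_left (abs_nonneg _) h1
    _ = |(lsub g a b).coeff i| := by
        rw [← abs_mul]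
        conv_rhs => rw [e, coeff_C_mul]

end Pool.Agent.TH532.CP
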