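import Pool.Agent.H474R2.PG.Rough

set_option autoImplicit false

/-! # Sums over rough squarefree numbers, uniformly in the root counting function

The proof is the one of `Pool.Agent.H474R2.PG.rough_lower` (starting files); only the order of the
quantifiers is changed: the constants depend on `d`, `B` and `C` alone. -/

namespace Pool.Agent.TH532.CP

open Polynomial Finset
open Pool.Agent.H474R2.PG (rho PR Sg PS)
open Pool.Agent.H474R2.PG.RoughAux

/-- sums over rough squarefree numbers (Rankin's trick), uniform in `r` -/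
theorem rough_lower_unif (d B : ℕ) (C : ℝ) :
    ∃ c₂ : ℝ, 0 < c₂ ∧ ∃ Y₀ : ℝ, 3 ≤ Y₀ ∧ ∀ r : ℕ → ℕ,
      (∀ p : ℕ, p.Prime → B < p → r p ≤ d) →
      (∀ w : ℝ, 3 ≤ w → Real.log (Real.log w) - C ≤ Sg r w) →
      ∀ y z x : ℝ, Y₀ ≤ y → y ≤ x → x ≤ z →
      c₂ * Real.log x * Real.exp (-(Sg r y)) - 1 ≤
        ∑ s ∈ ((PS r y z).powerset.filter
            (fun s : Finset ℕ => s.Nonempty ∧ ∏ p ∈ s, (p : ℝ) ≤ x)),
          ∏ p ∈ s, (r p : ℝ) / (p : ℝ) := by
  classical
  obtain ⟨C', hC'0, hC'⟩ := log_sum_le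
  obtain ⟨s, hs⟩ : ∃ s : ℝ, s = 2 * d * (1 + C') + 2 := ⟨_, rfl⟩
  have hd0 : (0 : ℝ) ≤ d := Nat.cast_nonneg d
  have hB0 : (0 : ℝ) ≤ B := Nat.cast_nonneg B
  have hs2 : 2 ≤ s := by
    rw [hs]
    have : 0 ≤ 2 * (d : ℝ) * (1 + C') := by positivity
    linarith
  have hs0 : 0 < s := by linarith
  refine ⟨3 / 4 * (Real.exp (-(d : ℝ) ^ 2) * Real.exp (-|C|)) / s, by positivity,
    3 + B + 2 * d, by linarith, fun r hr hM y z x hy hyx hxz => ?_⟩
  have hM' : ∀ w : ℝ, 3 ≤ w → Real.exp (-|C|) * Real.log w ≤ Real.exp (Sg r w) := by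
    intro w hw
    have hlw : 0 < Real.log w := Real.log_pos (by linarith)
    have h1 := hM w hw
    have h2 : Real.log (Real.log w) + -|C| ≤ Sg r w := by
      have := le_abs_self C
      linarith
    calc Real.exp (-|C|) * Real.log w = Real.exp (Real.log (Real.log w) + -|C|) := by
          rw [Real.exp_add, Real.exp_log hlw, mul_comm]
      _ ≤ _ := Real.exp_le_exp.2 h2
  have hy3 : 3 ≤ y := by linarith
  have hx3 : 3 ≤ x := by linarith
  have hx0 : 0 < x := by linarith
  have hlx : 0 < Real.log x := Real.log_pos (by linarith)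
  obtain ⟨w, hw⟩ : ∃ w : ℝ, w = x ^ (s⁻¹) := ⟨_, rfl⟩
  have hw0 : 0 < w := by rw [hw]; positivity
  have hlw : Real.log x = s * Real.log w := by
    rw [hw, Real.log_rpow hx0]
    field_simp
  have hex : ∀ t : ℝ, Real.exp (-t) * Real.exp t = 1 := fun t => by
    rw [← Real.exp_add]; simp
  have hv1 : Real.exp (-(d : ℝ) ^ 2) ≤ 1 := Real.exp_le_one_iff.2 (by nlinarith)
  by_cases hwy : w ≤ y
  · -- trivial case
    have h1 : Real.log w ≤ Real.log y := Real.log_le_log hw0 hwy
    have h2 := hM' y hy3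
    have hE := Real.exp_pos (-(Sg r y))
    have h3 : Real.exp (-|C|) * Real.log y * Real.exp (-(Sg r y)) ≤ 1 := by
      calc _ ≤ Real.exp (Sg r y) * Real.exp (-(Sg r y)) := by gcongr
        _ = 1 := by rw [mul_comm]; exact hex _
    have h4 : 3 / 4 * (Real.exp (-(d : ℝ) ^ 2) * Real.exp (-|C|)) / s * Real.log x *
        Real.exp (-(Sg r y)) ≤ 1 := by
      have e : 3 / 4 * (Real.exp (-(d : ℝ) ^ 2) * Real.exp (-|C|)) / s * Real.log x *
        Real.exp (-(Sg r y)) = 3 / 4 * Real.exp (-(d : ℝ) ^ 2) *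
          (Real.exp (-|C|) * Real.log w * Real.exp (-(Sg r y))) := by
        rw [hlw]
        field_simp
      rw [e]
      have h5 : Real.exp (-|C|) * Real.log w * Real.exp (-(Sg r y)) ≤ 1 := by
        refine le_trans ?_ h3
        gcongr
      have h6 : 0 ≤ Real.exp (-(d : ℝ) ^ 2) := (Real.exp_pos _).le
      have h7 : 0 ≤ Real.log w := by
        have : s * Real.log w > 0 := by rw [← hlw]; exact hlx
        exact ((mul_pos_iff_of_pos_left hs0).1 this).le
      have h8 : 0 ≤ Real.exp (-|C|) * Real.log w * Real.exp (-(Sg r y)) := by positivity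
      nlinarith [mul_le_mul hv1 h5 h8 zero_le_one]
    refine le_trans (sub_nonpos.2 h4) (sum_nonneg fun s _ => prod_nonneg fun p _ => by positivity)
  · push Not at hwy
    have hw3 : 3 ≤ w := by linarith
    have hlw1 : 1 ≤ Real.log w := by
      rw [Real.le_log_iff_exp_le hw0]
      have := Real.exp_one_lt_d9
      linarith
    have hwx : w ≤ x := by
      rw [hw]
      calc x ^ (s⁻¹) ≤ x ^ (1 : ℝ) := Real.rpow_le_rpow_of_exponent_le (by linarith)
            (inv_le_one_of_one_le₀ (by linarith))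
        _ = x := Real.rpow_one x
    obtain ⟨a, ha⟩ : ∃ a : ℕ → ℝ, a = fun p => (r p : ℝ) / (p : ℝ) := ⟨_, rfl⟩
    have hPS : ∀ {v : ℝ}, 0 ≤ v → ∀ {p : ℕ}, p ∈ PS r y v ↔
        (p.Prime ∧ (p : ℝ) ≤ v) ∧ y < (p : ℝ) ∧ r p ≠ 0 := by
      intro v hv p
      rw [PS, mem_filter, mem_PR hv]
    have hsub : PS r y w ⊆ PS r y z := by
      intro p hp
      rw [hPS (by linarith)] at hp ⊢
      exact ⟨⟨hp.1.1, by linarith [hp.1.2]⟩, hp.2⟩
    have ha0 : ∀ p, 0 ≤ a p := fun p => by rw [ha]; positivity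
    have had : ∀ p ∈ PS r y w, a p ≤ d / p := by
      intro p hp
      rw [hPS (by linarith)] at hp
      have h1 : B < p := by
        have : (B : ℝ) < p := by linarith [hp.2.1]
        exact_mod_cast this
      have h2 : (r p : ℝ) ≤ d := by exact_mod_cast hr p hp.1.1 h1
      rw [ha]
      exact div_le_div_of_nonneg_right h2 (Nat.cast_nonneg p)
    have hp1 : ∀ p ∈ PS r y w, 1 ≤ (p : ℝ) := fun p hp => by
      rw [hPS (by linarith)] at hp
      linarith [hp.2.1]
    have hpw : ∀ p ∈ PS r y w, (p : ℝ) ≤ w := fun p hp => by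
      rw [hPS (by linarith)] at hp
      exact hp.1.2
    have hη : 0 ≤ (Real.log w)⁻¹ := by positivity
    -- Rankin
    have hPi0 : 0 < ∏ p ∈ PS r y w, (1 + a p) := prod_pos fun p _ => by linarith [ha0 p]
    have hR := rankin (PS r y w) a (fun p _ => ha0 p) hx0 hη
    have hR2 := prod_le' (PS r y w) a (fun p _ => ha0 p) hp1 hlw1 hpw
    have hxη : x ^ (-(Real.log w)⁻¹) = Real.exp (-s) := by
      rw [Real.rpow_def_of_pos hx0, hlw]
      congr 1
      have : Real.log w ≠ 0 := by linarith
      field_simp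
    have hE : ∑ p ∈ PS r y w, 2 * a p * ((Real.log w)⁻¹ * Real.log p) ≤ 2 * d * (1 + C') := by
      have h1 : ∑ p ∈ PS r y w, 2 * a p * ((Real.log w)⁻¹ * Real.log p) ≤
          ∑ p ∈ PS r y w, 2 * d * (Real.log w)⁻¹ * (Real.log p / p) := by
        refine sum_le_sum fun p hp => ?_
        have h2 : 0 ≤ Real.log p := Real.log_nonneg (hp1 p hp)
        have h3 := had p hp
        calc 2 * a p * ((Real.log w)⁻¹ * Real.log p) ≤
              2 * (d / p) * ((Real.log w)⁻¹ * Real.log p) := by gcongr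
          _ = _ := by ring
      have h4 : ∑ p ∈ PS r y w, Real.log p / p ≤ ∑ p ∈ PR w, Real.log p / p :=
        sum_le_sum_of_subset_of_nonneg (filter_subset _ _) fun p hp _ => by
          have := Real.log_natCast_nonneg p
          positivity
      have h5 := hC' w (by linarith)
      rw [← mul_sum] at h1
      refine h1.trans ?_
      calc 2 * d * (Real.log w)⁻¹ * ∑ p ∈ PS r y w, Real.log p / p ≤
            2 * d * (Real.log w)⁻¹ * (Real.log w + C') := by
              gcongr
              exact h4.trans h5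
        _ = 2 * d * (1 + (Real.log w)⁻¹ * C') := by
              have : Real.log w ≠ 0 := by linarith
              field_simp
        _ ≤ 2 * d * (1 + 1 * C') := by
              gcongr
              exact inv_le_one_of_one_le₀ hlw1
        _ = _ := by ring
    have hbad : ∑ t ∈ (PS r y w).powerset.filter (fun t : Finset ℕ => ¬ ∏ p ∈ t, (p : ℝ) ≤ x),
        ∏ p ∈ t, a p ≤ (∏ p ∈ PS r y w, (1 + a p)) * (1 / 4) := by
      refine hR.trans ?_
      rw [hxη]
      calc Real.exp (-s) * ∏ p ∈ PS r y w, (1 + a p * (p : ℝ) ^ (Real.log w)⁻¹) ≤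
            Real.exp (-s) * ((∏ p ∈ PS r y w, (1 + a p)) * Real.exp (2 * d * (1 + C'))) := by
              gcongr
              refine hR2.trans ?_
              gcongr
        _ = (∏ p ∈ PS r y w, (1 + a p)) * Real.exp (-2) := by
              have : Real.exp (-2) = Real.exp (-s) * Real.exp (2 * d * (1 + C')) := by
                rw [← Real.exp_add, hs]
                congr 1
                ring
              rw [this]
              ring
        _ ≤ _ := by
              gcongr
              exact exp_neg_two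
    have hall : ∑ t ∈ (PS r y w).powerset.filter (fun t : Finset ℕ => ∏ p ∈ t, (p : ℝ) ≤ x),
        ∏ p ∈ t, a p + ∑ t ∈ (PS r y w).powerset.filter
          (fun t : Finset ℕ => ¬ ∏ p ∈ t, (p : ℝ) ≤ x), ∏ p ∈ t, a p =
        ∏ p ∈ PS r y w, (1 + a p) := by
      rw [sum_filter_add_sum_filter_not, prod_one_add]
    -- remove the empty set
    have hmem : (∅ : Finset ℕ) ∈ (PS r y w).powerset.filter
        (fun t : Finset ℕ => ∏ p ∈ t, (p : ℝ) ≤ x) := by
      rw [mem_filter, prod_empty]
      exact ⟨empty_mem_powerset _, by linarith⟩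
    have hge : ∑ t ∈ (PS r y w).powerset.filter (fun t : Finset ℕ => ∏ p ∈ t, (p : ℝ) ≤ x),
        ∏ p ∈ t, a p - 1 ≤ ∑ t ∈ ((PS r y z).powerset.filter
            (fun s : Finset ℕ => s.Nonempty ∧ ∏ p ∈ s, (p : ℝ) ≤ x)), ∏ p ∈ t, a p := by
      rw [← add_sum_erase _ _ hmem, prod_empty, add_sub_cancel_left]
      refine sum_le_sum_of_subset_of_nonneg (fun t ht => ?_) fun t _ _ =>
        prod_nonneg fun p _ => ha0 p
      rw [mem_erase, mem_filter, mem_powerset] at ht
      rw [mem_filter, mem_powerset]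
      exact ⟨ht.2.1.trans hsub, nonempty_iff_ne_empty.2 ht.1, ht.2.2⟩
    -- lower bound of the product
    have hPi : Real.exp (Sg r w - Sg r y - (d : ℝ) ^ 2) ≤ ∏ p ∈ PS r y w, (1 + a p) := by
      calc Real.exp (Sg r w - Sg r y - (d : ℝ) ^ 2) ≤
            Real.exp (∑ p ∈ PS r y w, (a p - a p ^ 2)) := by
              rw [Real.exp_le_exp, sum_sub_distrib]
              have h1 : ∑ p ∈ PS r y w, a p = Sg r w - Sg r y := by
                rw [ha]
                exact sum_PS r (by linarith) hwy.le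
              have h2 : ∑ p ∈ PS r y w, a p ^ 2 ≤ (d : ℝ) ^ 2 := by
                calc ∑ p ∈ PS r y w, a p ^ 2 ≤ ∑ p ∈ PS r y w, (d : ℝ) ^ 2 * ((p : ℝ) ^ 2)⁻¹ := by
                      refine sum_le_sum fun p hp => ?_
                      calc a p ^ 2 ≤ (d / p) ^ 2 := pow_le_pow_left₀ (ha0 p) (had p hp) 2
                        _ = _ := by rw [div_pow, div_eq_mul_inv]
                  _ = (d : ℝ) ^ 2 * ∑ p ∈ PS r y w, ((p : ℝ) ^ 2)⁻¹ := by rw [mul_sum]
                  _ ≤ (d : ℝ) ^ 2 * 1 := by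
                      gcongr
                      refine sum_inv_sq_le fun p hp => ?_
                      rw [hPS (by linarith)] at hp
                      exact hp.1.1.two_le
                  _ = _ := mul_one _
              linarith
        _ = ∏ p ∈ PS r y w, Real.exp (a p - a p ^ 2) := Real.exp_sum _ _
        _ ≤ _ := prod_le_prod (fun p _ => (Real.exp_pos _).le) fun p _ => one_add_lower (ha0 p)
    have hfin : 3 / 4 * (Real.exp (-(d : ℝ) ^ 2) * Real.exp (-|C|)) / s * Real.log x *
        Real.exp (-(Sg r y)) ≤ 3 / 4 * ∏ p ∈ PS r y w, (1 + a p) := by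
      have h2 := hM' w hw3
      have e : 3 / 4 * (Real.exp (-(d : ℝ) ^ 2) * Real.exp (-|C|)) / s * Real.log x *
        Real.exp (-(Sg r y)) = 3 / 4 * (Real.exp (-(d : ℝ) ^ 2) *
          (Real.exp (-|C|) * Real.log w) * Real.exp (-(Sg r y))) := by
        rw [hlw]
        field_simp
      rw [e]
      gcongr
      refine le_trans ?_ hPi
      calc Real.exp (-(d : ℝ) ^ 2) * (Real.exp (-|C|) * Real.log w) * Real.exp (-(Sg r y)) ≤
            Real.exp (-(d : ℝ) ^ 2) * Real.exp (Sg r w) * Real.exp (-(Sg r y)) := by gcongr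
        _ = _ := by
            rw [← Real.exp_add, ← Real.exp_add]
            congr 1
            ring
    rw [ha] at hge hall hbad hfin
    linarith

end Pool.Agent.TH532.CP
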