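import Pool.Agent.H474R2.GE.FA
import Pool.Agent.H426R3.SQ.Defs
import Pool.Agent.TH532.CP.RoughU

set_option autoImplicit false

/-! # The profile condition of the covering theorem -/

namespace Pool.Agent.TH532.CP

open Polynomial Finset
open Pool.Agent.H474R2.PG (rho PR Sg PS rho_le)
open Pool.Agent.H474R2.PG.RoughAux (mem_PR)
open Pool.Agent.H426R3.SQ (SP)

/-- constants for a finite set of polynomials -/
theorem consts (G : Finset ℤ[X]) (hG : ∀ g ∈ G, Irreducible g ∧ 0 < g.natDegree) :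
    ∃ (d B : ℕ) (C : ℝ), 1 ≤ d ∧ 0 ≤ C ∧ ∀ g ∈ G,
      (∀ p : ℕ, p.Prime → B < p → rho g p ≤ d) ∧
      ∀ w : ℝ, 3 ≤ w → |Sg (rho g) w - Real.log (Real.log w)| ≤ C := by
  classical
  induction G using Finset.induction_on with
  | empty => exact ⟨1, 0, 0, le_rfl, le_rfl, fun g hg => absurd hg (notMem_empty g)⟩
  | insert g G hgG ih =>
    obtain ⟨d, B, C, hd, hC, h⟩ := ih (fun k hk => hG k (mem_insert_of_mem hk))
    obtain ⟨hg1, hg2⟩ := hG g (mem_insert_self g G)
    obtain ⟨B', hB'⟩ := rho_le g hg1.ne_zero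
    obtain ⟨C', hC', hM⟩ := Pool.Agent.H474R2.GE.mertens_rho g hg1 hg2
    refine ⟨max d g.natDegree, max B B', max C C', le_max_of_le_left hd, le_max_of_le_left hC,
      fun k hk => ?_⟩
    rcases mem_insert.1 hk with rfl | hk
    · exact ⟨fun p hp hpB => (hB' p hp ((le_max_right _ _).trans_lt hpB)).trans (le_max_right _ _),
        fun w hw => (hM w hw).trans (le_max_right _ _)⟩
    · exact ⟨fun p hp hpB => ((h k hk).1 p hp ((le_max_left _ _).trans_lt hpB)).trans
        (le_max_left _ _), fun w hw => ((h k hk).2 w hw).trans (le_max_left _ _)⟩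

/-- the profile condition, with exceptional primes removed -/
theorem rough_at (d B : ℕ) (C : ℝ) (A : ℕ) (hA : 3 ≤ A) :
    ∃ c₂ : ℝ, 0 < c₂ ∧ ∃ L₀ : ℝ, ∀ L : ℝ, L₀ ≤ L → ∀ Exc : Finset ℕ,
      (d : ℝ) * Exc.card ≤ L ^ A → ∀ g : ℤ[X],
      (∀ p : ℕ, p.Prime → B < p → rho g p ≤ d) →
      (∀ w : ℝ, 3 ≤ w → |Sg (rho g) w - Real.log (Real.log w)| ≤ C) →
      ∀ z x : ℝ, L ^ 3 ≤ x → x ≤ z →
      c₂ * Real.log x / Real.log L - 1 ≤
        ∑ s ∈ ((SP (L ^ 3) z (Exc ∪ PR (L ^ A))).powerset.filter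
            (fun s : Finset ℕ => s.Nonempty ∧ ∏ p ∈ s, (p : ℝ) ≤ x)),
          ∏ p ∈ s, (rho g p : ℝ) / (p : ℝ) := by
  classical
  obtain ⟨c, hc, Y₀, hY₀, hR⟩ := rough_lower_unif d B (C + 1)
  have hA0 : (0 : ℝ) < A := by exact_mod_cast (show 0 < A by omega)
  refine ⟨min (c * Real.exp (-C) / A) (1 / A), lt_min (by positivity) (by positivity),
    max (max Y₀ B) 3, fun L hL Exc hExc g hg hM z x hLx hxz => ?_⟩
  have hL1 : Y₀ ≤ L := (le_max_left _ _).trans ((le_max_left _ _).trans hL)
  have hL2 : (B : ℝ) ≤ L := (le_max_right _ _).trans ((le_max_left _ _).trans hL)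
  have hL3 : 3 ≤ L := (le_max_right _ _).trans hL
  have hL0 : 0 < L := by linarith
  set l : ℝ := Real.log L with hl
  have hl1 : 0 < l := Real.log_pos (by linarith)
  set Y₁ : ℝ := L ^ A with hY₁
  have hY₁L : L ≤ Y₁ := le_self_pow₀ (by linarith) (by omega)
  have hY₁0 : 0 < Y₁ := by linarith
  have hlogY : Real.log Y₁ = A * l := by rw [hY₁, Real.log_pow]
  have hx3 : 27 ≤ x := by
    have : (3 : ℝ) ^ 3 ≤ L ^ 3 := pow_le_pow_left₀ (by norm_num) hL3 3
    linarith
  have hlx : 0 < Real.log x := Real.log_pos (by linarith)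
  set F : Finset (Finset ℕ) := ((SP (L ^ 3) z (Exc ∪ PR Y₁)).powerset.filter
            (fun s : Finset ℕ => s.Nonempty ∧ ∏ p ∈ s, (p : ℝ) ≤ x)) with hF
  have hnn : 0 ≤ ∑ s ∈ F, ∏ p ∈ s, (rho g p : ℝ) / (p : ℝ) :=
    sum_nonneg fun s _ => prod_nonneg fun p _ => by positivity
  rcases lt_or_ge x Y₁ with hxY | hxY
  · have h1 : Real.log x ≤ A * l := by
      rw [← hlogY]
      exact Real.log_le_log (by linarith) hxY.le
    have h2 : min (c * Real.exp (-C) / A) (1 / A) * Real.log x / l ≤ 1 := by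
      rw [div_le_one hl1]
      calc min (c * Real.exp (-C) / A) (1 / A) * Real.log x ≤ 1 / A * (A * l) := by
            apply mul_le_mul (min_le_right _ _) h1 hlx.le (by positivity)
        _ = l := by field_simp
    linarith
  · set r' : ℕ → ℕ := fun p => if Y₁ < (p : ℝ) ∧ p ∈ Exc then 0 else rho g p with hr'
    have hr1 : ∀ p : ℕ, p.Prime → B < p → r' p ≤ d := by
      intro p hp hpB
      rw [hr']
      dsimp only
      split_ifs
      · exact Nat.zero_le _
      · exact hg p hp hpB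
    have hM1 : ∀ w : ℝ, 3 ≤ w → Real.log (Real.log w) - (C + 1) ≤ Sg r' w := by
      intro w hw
      have h1 := (abs_le.1 (hM w hw)).1
      have h2 : Sg (rho g) w - 1 ≤ Sg r' w := by
        unfold Sg
        have h3 : ∑ p ∈ PR w, (rho g p : ℝ) / p - ∑ p ∈ PR w, (r' p : ℝ) / p =
            ∑ p ∈ (PR w).filter (fun p : ℕ => Y₁ < (p : ℝ) ∧ p ∈ Exc), (rho g p : ℝ) / p := by
          rw [← sum_sub_distrib, sum_filter]
          refine sum_congr rfl fun p _ => ?_
          rw [hr']
          dsimp only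
          split_ifs with h
          · simp
          · simp
        have h4 : ∑ p ∈ (PR w).filter (fun p : ℕ => Y₁ < (p : ℝ) ∧ p ∈ Exc), (rho g p : ℝ) / p ≤
            ∑ _p ∈ Exc, (d : ℝ) / Y₁ := by
          refine le_trans (b := ∑ _p ∈ (PR w).filter (fun p : ℕ => Y₁ < (p : ℝ) ∧ p ∈ Exc),
            (d : ℝ) / Y₁) (sum_le_sum fun p hp => ?_)
            (sum_le_sum_of_subset_of_nonneg (fun p hp => (mem_filter.1 hp).2.2)
              fun _ _ _ => by positivity)
          rw [mem_filter, mem_PR (by linarith)] at hp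
          have h5 : B < p := by
            have : (B : ℝ) < p := by linarith [hp.2.1]
            exact_mod_cast this
          have h6 : (rho g p : ℝ) ≤ d := by exact_mod_cast hg p hp.1.1 h5
          exact div_le_div₀ (Nat.cast_nonneg _) h6 hY₁0 hp.2.1.le
        have h7 : ∑ _p ∈ Exc, (d : ℝ) / Y₁ ≤ 1 := by
          rw [sum_const, nsmul_eq_mul, ← mul_div_assoc, div_le_one hY₁0]
          linarith [mul_comm (d : ℝ) Exc.card]
        linarith
      linarith
    have hmain := hR r' hr1 hM1 Y₁ z x (by linarith) hxY hxz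
    have hSg : Sg r' Y₁ ≤ Real.log (A * l) + C := by
      have h1 : Sg r' Y₁ = Sg (rho g) Y₁ := by
        unfold Sg
        refine sum_congr rfl fun p hp => ?_
        rw [mem_PR hY₁0.le] at hp
        rw [hr']
        dsimp only
        rw [if_neg (fun h => absurd h.1 (not_lt.2 hp.2))]
      have h2 := (abs_le.1 (hM Y₁ (by linarith))).2
      rw [hlogY] at h2
      rw [h1]
      linarith
    have hexp : Real.exp (-C) / (A * l) ≤ Real.exp (-(Sg r' Y₁)) := by
      have hAl : 0 < A * l := by positivity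
      calc Real.exp (-C) / (A * l) = Real.exp (-(Real.log (A * l) + C)) := by
            rw [neg_add, Real.exp_add, Real.exp_neg (Real.log _), Real.exp_log hAl]
            field_simp
        _ ≤ _ := Real.exp_le_exp.2 (neg_le_neg hSg)
    have hlow : min (c * Real.exp (-C) / A) (1 / A) * Real.log x / l ≤
        c * Real.log x * Real.exp (-(Sg r' Y₁)) := by
      calc min (c * Real.exp (-C) / A) (1 / A) * Real.log x / l ≤
            (c * Real.exp (-C) / A) * Real.log x / l := by
              gcongr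
              exact min_le_left _ _
        _ = c * Real.log x * (Real.exp (-C) / (A * l)) := by field_simp
        _ ≤ _ := by gcongr
    refine le_trans (sub_le_sub_right hlow 1) (hmain.trans ?_)
    have hsub : PS r' Y₁ z ⊆ SP (L ^ 3) z (Exc ∪ PR Y₁) := by
      intro p hp
      unfold PS at hp
      rw [mem_filter, mem_PR (by linarith)] at hp
      obtain ⟨⟨hp1, hp2⟩, hp3, hp4⟩ := hp
      unfold SP
      rw [mem_filter, mem_Icc]
      refine ⟨⟨hp1.one_lt.le, Nat.le_floor hp2⟩, hp1, ?_, ?_⟩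
      · have : L ^ 3 ≤ Y₁ := pow_le_pow_right₀ (by linarith) hA
        linarith
      · rw [mem_union, mem_PR hY₁0.le]
        rintro (h | h)
        · apply hp4
          rw [hr']
          dsimp only
          rw [if_pos ⟨hp3, h⟩]
        · exact absurd h.2 (not_le.2 hp3)
    refine le_trans (b := ∑ s ∈ ((PS r' Y₁ z).powerset.filter
        (fun s : Finset ℕ => s.Nonempty ∧ ∏ p ∈ s, (p : ℝ) ≤ x)),
        ∏ p ∈ s, (rho g p : ℝ) / (p : ℝ)) (le_of_eq ?_) ?_
    · refine sum_congr rfl fun s hs => prod_congr rfl fun p hp => ?_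
      rw [mem_filter, mem_powerset] at hs
      have h1 := hs.1 hp
      unfold PS at h1
      rw [mem_filter] at h1
      have h2 := h1.2.2
      rw [hr'] at h2 ⊢
      dsimp only at h2 ⊢
      split_ifs at h2 with h3
      · exact absurd rfl h2
      · rw [if_neg h3]
    · rw [hF]
      refine sum_le_sum_of_subset_of_nonneg (fun s hs => ?_) fun s _ _ =>
        prod_nonneg fun p _ => by positivity
      rw [mem_filter, mem_powerset] at hs ⊢
      exact ⟨hs.1.trans hsub, hs.2⟩

end Pool.Agent.TH532.CP
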