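import Pool.Agent.W154.PV.CovD
import Pool.Agent.W154.PV.Cnt
import Pool.Agent.H474R2.PG.Final
import Pool.Agent.TH532.CP.Rough2
import Pool.Agent.TH532.CP.ClassU
import Pool.Agent.TH532.CP.Res

set_option autoImplicit false

/-! # The covering theorem for a family of polynomials -/

namespace Pool.Agent.TH532.CP

open Polynomial Finset Filter
open Pool.Agent.H474R2.PG (rho PR Sg WW WW_pos WW_le PR_prime PR_le PR_not_dvd rho_le_self)
open Pool.Agent.H474R2.PG.RoughAux (mem_PR)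
open Pool.Agent.H426R3.SQ (SP)
open Pool.Agent.W154.PV (nu count_gen covering_hitD)

open scoped Classical

lemma ev_small : ∀ᶠ L : ℝ in atTop, L / 100 ≤ Real.exp (L ^ (1 / 20 : ℝ)) := by
  have h1 : (fun L : ℝ => Real.log L) =o[atTop] (fun L : ℝ => L ^ (1 / 20 : ℝ)) :=
    isLittleO_log_rpow_atTop (by norm_num)
  filter_upwards [h1.def (show (0:ℝ) < 1 by norm_num), eventually_ge_atTop (1:ℝ)] with L hL hL1
  have hlog := Real.log_nonneg hL1
  rw [Real.norm_eq_abs, Real.norm_eq_abs, abs_of_nonneg hlog,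
    abs_of_nonneg (Real.rpow_nonneg (by linarith) _), one_mul] at hL
  calc L / 100 ≤ L := by linarith
    _ = Real.exp (Real.log L) := (Real.exp_log (by linarith)).symm
    _ ≤ _ := Real.exp_le_exp.2 hL

/-- the exceptional primes -/
lemma exc_exists (L : ℝ) (hL : 3 ≤ L) (D : ℕ) (𝒦 : Finset ℤ[X]) (P : ℤ[X] → Finset ℕ)
    (hP : ∀ k ∈ 𝒦, ((P k).card : ℝ) ≤ L ^ D)
    (hN : ∀ k ∈ 𝒦, ∀ l ∈ 𝒦, k ≠ l → ∃ N : ℤ, N ≠ 0 ∧ Real.log |(N : ℝ)| ≤ L ^ D ∧
      ∀ p n : ℤ, p ∣ k.eval n → p ∣ l.eval n → p ∣ N)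
    (hc : (𝒦.card : ℝ) ≤ L ^ 2) :
    ∃ Exc : Finset ℕ, (Exc.card : ℝ) ≤ L ^ (D + 5) ∧ (∀ k ∈ 𝒦, P k ⊆ Exc) ∧
      ∀ k ∈ 𝒦, ∀ l ∈ 𝒦, k ≠ l → ∀ p : ℕ, p.Prime → ∀ n : ℤ, (p : ℤ) ∣ k.eval n →
        (p : ℤ) ∣ l.eval n → p ∈ Exc := by
  have hL0 : 0 ≤ L := by linarith
  choose! N hN0 hN1 hN2 using hN
  set E1 : Finset ℕ := 𝒦.biUnion P with hE1
  set E2 : Finset ℕ := 𝒦.biUnion (fun k => (𝒦.filter (fun l => k ≠ l)).biUnion
    (fun l => (N k l).natAbs.primeFactors)) with hE2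
  refine ⟨E1 ∪ E2, ?_, ?_, ?_⟩
  · have h1 : (E1.card : ℝ) ≤ L ^ (D + 2) := by
      calc (E1.card : ℝ) ≤ ((∑ k ∈ 𝒦, (P k).card : ℕ) : ℝ) := by exact_mod_cast card_biUnion_le
        _ = ∑ k ∈ 𝒦, ((P k).card : ℝ) := by push_cast; rfl
        _ ≤ ∑ _k ∈ 𝒦, L ^ D := sum_le_sum hP
        _ = 𝒦.card * L ^ D := by rw [sum_const, nsmul_eq_mul]
        _ ≤ L ^ 2 * L ^ D := by gcongr
        _ = L ^ (D + 2) := by ring
    have h2 : (E2.card : ℝ) ≤ 2 * L ^ (D + 4) := by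
      have h3 : ∀ k ∈ 𝒦, ∀ l ∈ 𝒦.filter (fun l => k ≠ l),
          (((N k l).natAbs.primeFactors).card : ℝ) ≤ 2 * L ^ D := by
        intro k hk l hl
        rw [mem_filter] at hl
        have h4 := card_primeFactors_le (N k l) (hN0 k hk l hl.1 hl.2)
        have h5 := hN1 k hk l hl.1 hl.2
        have h6 : (1 / 2 : ℝ) ≤ Real.log 2 := by
          have := Real.log_two_gt_d9
          linarith
        have h7 : (0 : ℝ) ≤ ((N k l).natAbs.primeFactors).card := Nat.cast_nonneg _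
        nlinarith
      calc (E2.card : ℝ) ≤ ((∑ k ∈ 𝒦, ((𝒦.filter (fun l => k ≠ l)).biUnion
            (fun l => (N k l).natAbs.primeFactors)).card : ℕ) : ℝ) := by
            exact_mod_cast card_biUnion_le
        _ = ∑ k ∈ 𝒦, (((𝒦.filter (fun l => k ≠ l)).biUnion
            (fun l => (N k l).natAbs.primeFactors)).card : ℝ) := by push_cast; rfl
        _ ≤ ∑ _k ∈ 𝒦, 2 * L ^ (D + 2) := by
            refine sum_le_sum fun k hk => ?_
            calc (((𝒦.filter (fun l => k ≠ l)).biUnion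
                (fun l => (N k l).natAbs.primeFactors)).card : ℝ) ≤
                ((∑ l ∈ 𝒦.filter (fun l => k ≠ l), ((N k l).natAbs.primeFactors).card : ℕ) : ℝ) :=
                  by exact_mod_cast card_biUnion_le
              _ = ∑ l ∈ 𝒦.filter (fun l => k ≠ l), (((N k l).natAbs.primeFactors).card : ℝ) := by
                  push_cast; rfl
              _ ≤ ∑ _l ∈ 𝒦.filter (fun l => k ≠ l), 2 * L ^ D := sum_le_sum (h3 k hk)
              _ = (𝒦.filter (fun l => k ≠ l)).card * (2 * L ^ D) := by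
                  rw [sum_const, nsmul_eq_mul]
              _ ≤ 𝒦.card * (2 * L ^ D) := by
                  gcongr
                  exact filter_subset _ _
              _ ≤ L ^ 2 * (2 * L ^ D) := by gcongr
              _ = 2 * L ^ (D + 2) := by ring
        _ = 𝒦.card * (2 * L ^ (D + 2)) := by rw [sum_const, nsmul_eq_mul]
        _ ≤ L ^ 2 * (2 * L ^ (D + 2)) := by gcongr
        _ = 2 * L ^ (D + 4) := by ring
    have h3 : ((E1 ∪ E2).card : ℝ) ≤ E1.card + E2.card := by exact_mod_cast card_union_le _ _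
    have h4 : L ^ (D + 2) ≤ L ^ (D + 4) := pow_le_pow_right₀ (by linarith) (by omega)
    have h5 : L ^ (D + 5) = L * L ^ (D + 4) := by ring
    have h6 : 0 ≤ L ^ (D + 4) := by positivity
    nlinarith
  · intro k hk
    exact (subset_biUnion_of_mem P hk).trans subset_union_left
  · intro k hk l hl hkl p hp n h1 h2
    apply mem_union_right
    rw [hE2, mem_biUnion]
    refine ⟨k, hk, ?_⟩
    rw [mem_biUnion]
    refine ⟨l, mem_filter.2 ⟨hl, hkl⟩, ?_⟩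
    rw [Nat.mem_primeFactors]
    refine ⟨hp, ?_, Int.natAbs_ne_zero.2 (hN0 k hk l hl hkl)⟩
    exact Int.natCast_dvd.1 (hN2 k hk l hl hkl p n h1 h2)

set_option maxHeartbeats 2000000 in
/-- the covering theorem for a family of polynomials -/
theorem cover_family (G : Finset ℤ[X]) (hG : ∀ g ∈ G, Irreducible g ∧ 0 < g.natDegree) (D : ℕ) :
    ∃ c : ℝ, 0 < c ∧ ∃ Y₀ : ℝ, ∀ Y : ℝ, Y₀ ≤ Y → ∀ M : ℤ,
    ∀ (𝒦 : Finset ℤ[X]) (base : ℤ[X] → ℤ[X]) (P : ℤ[X] → Finset ℕ),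
    (∀ k ∈ 𝒦, base k ∈ G ∧ ((P k).card : ℝ) ≤ Real.log Y ^ D ∧
      ∀ p : ℕ, p.Prime → p ∉ P k → rho k p = rho (base k) p) →
    (∀ k ∈ 𝒦, ∀ l ∈ 𝒦, k ≠ l → ∃ N : ℤ, N ≠ 0 ∧ Real.log |(N : ℝ)| ≤ Real.log Y ^ D ∧
      ∀ p n : ℤ, p ∣ k.eval n → p ∣ l.eval n → p ∣ N) →
    (𝒦.card : ℝ) ≤ Real.log Y ^ 2 →
    ∑ k ∈ 𝒦, ∏ p ∈ PR (Real.log Y / 100), (1 - (rho k p : ℝ) / p) ≤ c * Real.log Y →
    ∀ Bad : Finset ℤ, (Bad.card : ℝ) ≤ Y ^ (1 / 20 : ℝ) →
    ∃ n : ℤ, M < n ∧ (n : ℝ) ≤ M + Y ∧ n ∉ Bad ∧ ∀ k ∈ 𝒦, ∃ p : ℕ, p.Prime ∧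
      (p : ℝ) ≤ Real.exp (Real.log Y ^ (1 / 20 : ℝ)) ∧ (p : ℤ) ∣ k.eval n := by
  obtain ⟨d, B, C, hd, hC, hcon⟩ := consts G hG
  set A : ℕ := D + 6 with hA
  obtain ⟨c₂, hc₂, L₀, hL₀⟩ := rough_at d B C A (by omega)
  obtain ⟨c, hc, X₀, hX₀⟩ := covering_hitD d c₂ (by exact_mod_cast hd) hc₂
  refine ⟨c, hc, ?_⟩
  have t1 : Tendsto (fun Y : ℝ => Real.log Y) atTop atTop := Real.tendsto_log_atTop
  have key : ∀ᶠ Y : ℝ in atTop, (X₀ ≤ Y ∧ 4 ≤ Y) ∧ (L₀ ≤ Real.log Y ∧ (B : ℝ) ≤ Real.log Y ∧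
      (d : ℝ) ^ 2 ≤ Real.log Y ∧ 1000 ≤ Real.log Y) ∧
      Real.log Y / 100 ≤ Real.exp (Real.log Y ^ (1 / 20 : ℝ)) := by
    filter_upwards [eventually_ge_atTop X₀, eventually_ge_atTop (4:ℝ),
      t1.eventually_ge_atTop L₀, t1.eventually_ge_atTop (B : ℝ),
      t1.eventually_ge_atTop ((d : ℝ) ^ 2), t1.eventually_ge_atTop (1000 : ℝ),
      t1.eventually ev_small] with Y a1 a2 a3 a4 a5 a6 a7
    exact ⟨⟨a1, a2⟩, ⟨a3, a4, a5, a6⟩, a7⟩
  obtain ⟨Y₀, hY₀⟩ := eventually_atTop.mp key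
  refine ⟨Y₀, fun Y hY M 𝒦 base P hP hN h𝒦 hsum Bad hBad => ?_⟩
  obtain ⟨⟨a1, a2⟩, ⟨a3, a4, a5, a6⟩, a7⟩ := hY₀ Y hY
  have hY0 : 0 < Y := by linarith
  set L : ℝ := Real.log Y with hL
  have hLpos : 0 < L := by linarith
  have hYexp : Y = Real.exp L := (Real.exp_log hY0).symm
  have hYr : ∀ s : ℝ, Y ^ s = Real.exp (s * L) := by
    intro s
    rw [hYexp, ← Real.exp_mul, mul_comm]
  have hdR : (1 : ℝ) ≤ d := by exact_mod_cast hd
  have hdL : (d : ℝ) ≤ L := by nlinarith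
  -- exceptional primes
  obtain ⟨Exc, hE1, hE2, hE3⟩ := exc_exists L (by linarith) D 𝒦 P (fun k hk => (hP k hk).2.1)
    hN h𝒦
  have hExc : (d : ℝ) * Exc.card ≤ L ^ A := by
    have h1 : (d : ℝ) * Exc.card ≤ L * L ^ (D + 5) :=
      mul_le_mul hdL hE1 (Nat.cast_nonneg _) hLpos.le
    have h2 : L * L ^ (D + 5) = L ^ A := by rw [hA]; ring
    exact h1.trans h2.le
  set Bs : Finset ℕ := Exc ∪ PR (L ^ A) with hBs
  have hLA : L ≤ L ^ A := le_self_pow₀ (by linarith) (by omega)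
  have hLA0 : 0 ≤ L ^ A := by positivity
  have hnBs : ∀ p : ℕ, p.Prime → p ∉ Bs → L ^ A < p ∧ p ∉ Exc := by
    intro p hp h
    rw [hBs, mem_union, not_or, mem_PR hLA0] at h
    refine ⟨?_, h.1⟩
    by_contra h2
    exact h.2 ⟨hp, not_lt.1 h2⟩
  have hrho : ∀ k ∈ 𝒦, ∀ p : ℕ, p.Prime → p ∉ Bs → rho k p = rho (base k) p ∧ rho k p ≤ d := by
    intro k hk p hp hpB
    obtain ⟨h1, h2⟩ := hnBs p hp hpB
    have h3 : rho k p = rho (base k) p := (hP k hk).2.2 p hp (fun h => h2 (hE2 k hk h))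
    refine ⟨h3, ?_⟩
    rw [h3]
    apply (hcon _ (hP k hk).1).1 p hp
    have : (B : ℝ) < p := by linarith
    exact_mod_cast this
  -- small primes
  set w : ℝ := L / 100 with hw
  have hw0 : 0 ≤ w := by positivity
  obtain ⟨r, hr⟩ := class_choice_w (PR w) (fun p hp => PR_prime hp) 𝒦
  set 𝒮 : Finset ℤ[X] := 𝒦.filter (fun k => ∀ p ∈ PR w, ¬ (p : ℤ) ∣ k.eval r) with h𝒮
  have hScard : (𝒮.card : ℝ) ≤ c * L := hr.trans hsum
  set W : ℕ := WW w with hW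
  have hW1 : 1 ≤ W := WW_pos w
  have hWle : (W : ℝ) ≤ Real.exp (L / 50) := WW_le hLpos.le
  have hWR : (0:ℝ) < W := by exact_mod_cast hW1
  -- the set
  set B' : ℤ := M + ⌊Y⌋₊ with hB'
  have hMB : M ≤ B' := by rw [hB']; omega
  set 𝒜 : Finset ℤ := (Ioc M B').filter (fun a : ℤ => (W : ℤ) ∣ a - r ∧ a ∉ Bad) with h𝒜
  set N : ℝ := ((B' : ℝ) - M) / W with hNdef
  have hBM : (B' : ℝ) - M = (⌊Y⌋₊ : ℝ) := by rw [hB']; push_cast; ring
  have hfl : Y / 2 ≤ (⌊Y⌋₊ : ℝ) := by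
    have := Nat.lt_floor_add_one Y
    linarith
  have hNge : 4 * Y ^ (1 / 2 : ℝ) ≤ N := by
    rw [hNdef, le_div_iff₀ hWR, hBM]
    refine le_trans ?_ hfl
    rw [hYr]
    have h0 := Real.exp_pos (1 / 2 * L)
    calc 4 * Real.exp (1 / 2 * L) * W ≤ 4 * Real.exp (1 / 2 * L) * Real.exp (L / 50) := by gcongr
      _ = 4 * Real.exp (26 / 50 * L) := by rw [mul_assoc, ← Real.exp_add]; congr 2; ring
      _ ≤ Y / 2 := by
          have h1 : Y = Real.exp (26 / 50 * L) * Real.exp (24 / 50 * L) := by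
            rw [← Real.exp_add, hYexp]; congr 1; ring
          have h2 : 8 ≤ Real.exp (24 / 50 * L) := by
            have := Real.add_one_le_exp (24 / 50 * L)
            linarith
          have h3 := Real.exp_pos (26 / 50 * L)
          rw [h1]
          nlinarith
  have hYhalf : 0 < Y ^ (1 / 2 : ℝ) := Real.rpow_pos_of_pos hY0 _
  have h20 : 2 * Y ^ (1 / 20 : ℝ) ≤ Y ^ (1 / 10 : ℝ) := by
    rw [hYr, hYr]
    have h1 : Real.exp (1 / 10 * L) = Real.exp (1 / 20 * L) * Real.exp (1 / 20 * L) := by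
      rw [← Real.exp_add]; congr 1; ring
    have h2 : 2 ≤ Real.exp (1 / 20 * L) := by
      have := Real.add_one_le_exp (1 / 20 * L)
      linarith
    rw [h1]
    have := Real.exp_pos (1 / 20 * L)
    nlinarith
  have h10 : Y ^ (1 / 10 : ℝ) ≤ Y ^ (1 / 2 : ℝ) :=
    Real.rpow_le_rpow_of_exponent_le (by linarith) (by norm_num)
  have hY20 : 1 ≤ Y ^ (1 / 20 : ℝ) := Real.one_le_rpow (by linarith) (by norm_num)
  -- from the covering of the survivors to the conclusion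
  have hfin : ∀ n ∈ 𝒜, (∀ k ∈ 𝒮, ∃ p : ℕ, p.Prime ∧
      (p : ℝ) ≤ Real.exp (L ^ (1 / 20 : ℝ)) ∧ (p : ℤ) ∣ k.eval n) →
      ∃ n : ℤ, M < n ∧ (n : ℝ) ≤ M + Y ∧ n ∉ Bad ∧ ∀ k ∈ 𝒦, ∃ p : ℕ, p.Prime ∧
      (p : ℝ) ≤ Real.exp (L ^ (1 / 20 : ℝ)) ∧ (p : ℤ) ∣ k.eval n := by
    intro n hn hcv
    rw [h𝒜, mem_filter, mem_Ioc] at hn
    obtain ⟨⟨hn1, hn2⟩, hn3, hn4⟩ := hn
    refine ⟨n, hn1, ?_, hn4, fun k hk => ?_⟩
    · have h1 : (n : ℝ) ≤ (B' : ℝ) := by exact_mod_cast hn2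
      have h2 := Nat.floor_le hY0.le
      linarith
    · by_cases hkS : k ∈ 𝒮
      · exact hcv k hkS
      · rw [h𝒮, mem_filter, not_and] at hkS
        have h1 := hkS hk
        push Not at h1
        obtain ⟨p, hp, hpd⟩ := h1
        refine ⟨p, PR_prime hp, (PR_le hw0 hp).trans a7, ?_⟩
        have h2 : (p : ℤ) ∣ n - r := by
          refine dvd_trans ?_ hn3
          have : p ∣ W := by
            rw [hW]
            exact Finset.dvd_prod_of_mem _ hp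
          exact_mod_cast this
        exact (dvd_iff_dvd_of_dvd_sub (h2.trans (Polynomial.sub_dvd_eval_sub n r k))).2 hpd
  -- counting
  have hcnt : ∀ (T : Finset ℕ) (s : ℕ → ℤ[X]), (∀ p ∈ T, s p ∈ 𝒦) →
      (∏ p ∈ T, (p : ℝ)) ≤ Y ^ (1 / 4 : ℝ) →
      (∀ p ∈ T, p.Prime ∧ L ^ 3 < (p : ℝ) ∧ p ∉ Bs) →
      |((𝒜.filter (fun a => ∀ p ∈ T, (p : ℤ) ∣ (s p).eval a)).card : ℝ) -
        N * ∏ p ∈ T, (rho (s p) p : ℝ) / (p : ℝ)| ≤ Y ^ (1 / 10 : ℝ) := by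
    intro T s hs hT1 hT2
    have hnd : ∀ p ∈ T, p.Prime ∧ ¬ p ∣ W := by
      intro p hp
      obtain ⟨h1, h2, h3⟩ := hT2 p hp
      refine ⟨h1, PR_not_dvd hw0 h1 ?_⟩
      have := (hnBs p h1 h3).1
      rw [hw]
      linarith
    have h1 := count_gen M B' hMB W hW1 r T hnd (fun p a => (p : ℤ) ∣ (s p).eval a)
      (fun p _ x y h => dvd_iff_dvd_of_dvd_sub (h.trans (Polynomial.sub_dvd_eval_sub x y (s p))))
    have h2 : ∀ p ∈ T, (nu (fun a => (p : ℤ) ∣ (s p).eval a) p : ℝ) = rho (s p) p := by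
      intro p _
      unfold nu rho
      congr!
    rw [prod_congr rfl (fun p hp => by rw [h2 p hp]), prod_congr rfl h2] at h1
    -- the error term
    have hE : (∏ p ∈ T, (rho (s p) p : ℝ)) ≤ Y ^ (1 / 20 : ℝ) := by
      have h5 : (∏ p ∈ T, (rho (s p) p : ℝ)) ^ 5 ≤ (Y ^ (1 / 20 : ℝ)) ^ 5 := by
        rw [← prod_pow]
        calc ∏ p ∈ T, (rho (s p) p : ℝ) ^ 5 ≤ ∏ p ∈ T, (p : ℝ) := by
              refine prod_le_prod (fun _ _ => by positivity) fun p hp => ?_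
              obtain ⟨g1, g2, g3⟩ := hT2 p hp
              have g4 : (rho (s p) p : ℝ) ≤ d := by
                exact_mod_cast (hrho (s p) (hs p hp) p g1 g3).2
              calc (rho (s p) p : ℝ) ^ 5 ≤ (d : ℝ) ^ 5 := by gcongr
                _ ≤ (d : ℝ) ^ 6 := pow_le_pow_right₀ hdR (by norm_num)
                _ = ((d : ℝ) ^ 2) ^ 3 := by ring
                _ ≤ L ^ 3 := by gcongr
                _ ≤ p := g2.le
          _ ≤ Y ^ (1 / 4 : ℝ) := hT1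
          _ = (Y ^ (1 / 20 : ℝ)) ^ 5 := by
              rw [← Real.rpow_natCast, ← Real.rpow_mul hY0.le]
              norm_num
      exact le_of_pow_le_pow_left₀ (by norm_num) (Real.rpow_nonneg hY0.le _) h5
    set S1 : Finset ℤ := (Ioc M B').filter (fun a : ℤ => (W : ℤ) ∣ a - r ∧
      ∀ p ∈ T, (p : ℤ) ∣ (s p).eval a) with hS1
    set S2 : Finset ℤ := 𝒜.filter (fun a => ∀ p ∈ T, (p : ℤ) ∣ (s p).eval a) with hS2
    have h3 : S2 ⊆ S1 := by
      intro a ha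
      rw [hS2, h𝒜, mem_filter, mem_filter] at ha
      rw [hS1, mem_filter]
      exact ⟨ha.1.1, ha.1.2.1, ha.2⟩
    have h4 : S1 ⊆ S2 ∪ Bad := by
      intro a ha
      rw [hS1, mem_filter] at ha
      rw [mem_union, hS2, h𝒜, mem_filter, mem_filter]
      by_cases hab : a ∈ Bad
      · exact Or.inr hab
      · exact Or.inl ⟨⟨ha.1, ha.2.1, hab⟩, ha.2.2⟩
    have h5 : (S2.card : ℝ) ≤ S1.card := by exact_mod_cast card_le_card h3
    have h6 : (S1.card : ℝ) ≤ S2.card + Bad.card := by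
      exact_mod_cast (card_le_card h4).trans (card_union_le _ _)
    have h1' : |(S1.card : ℝ) - N * ∏ p ∈ T, (rho (s p) p : ℝ) / (p : ℝ)| ≤
        ∏ p ∈ T, (rho (s p) p : ℝ) := by
      refine le_trans (le_of_eq ?_) h1
      congr!
    have h7 := abs_le.1 (h1'.trans hE)
    rw [abs_le]
    constructor
    · have := h7.1
      linarith
    · have := h7.2
      linarith
  rcases 𝒮.eq_empty_or_nonempty with hemp | hne
  · have h0 : (1 : ℝ) ≤ Y ^ (1 / 4 : ℝ) := Real.one_le_rpow (by linarith) (by norm_num)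
    have h1 := hcnt ∅ (fun _ => 0) (by simp) (by simpa using h0) (by simp)
    simp only [Finset.notMem_empty, IsEmpty.forall_iff, implies_true, prod_empty, mul_one,
      filter_true] at h1
    have h2 := (abs_le.1 h1).1
    have h3 : 0 < 𝒜.card := by
      have : (0 : ℝ) < 𝒜.card := by linarith
      exact_mod_cast this
    obtain ⟨a, ha⟩ := card_pos.1 h3
    exact hfin a ha (fun k hk => by rw [hemp] at hk; exact absurd hk (notMem_empty k))
  · have : Nonempty (↥𝒮) := hne.to_subtype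
    have hSK : ∀ k : ↥𝒮, (k : ℤ[X]) ∈ 𝒦 := fun k => (mem_filter.1 k.2).1
    obtain ⟨a, ha, hcv⟩ := hX₀ Y a1 Bs (↥𝒮) (by rw [Fintype.card_coe]; exact hScard)
      (fun p a k => p ∉ Bs ∧ (p : ℤ) ∣ (k : ℤ[X]).eval a)
      (fun p k => if p.Prime ∧ p ∉ Bs then (rho (k : ℤ[X]) p : ℝ) / p else 0)
      (by
        intro p k
        split_ifs with h
        · have h1 : (rho (k : ℤ[X]) p : ℝ) ≤ d := by
            exact_mod_cast (hrho k (hSK k) p h.1 h.2).2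
          exact ⟨by positivity, div_le_div_of_nonneg_right h1 (Nat.cast_nonneg p)⟩
        · exact ⟨le_rfl, by positivity⟩)
      (by
        intro p hp _ a k l h1 h2
        by_contra hkl
        have h3 := hE3 k (hSK k) l (hSK l) (fun h => hkl (Subtype.ext h)) p hp a h1.2 h2.2
        exact (hnBs p hp h1.1).2 h3)
      (by
        intro k z x h1 h2 _
        obtain ⟨g1, g2, g3⟩ := hP k (hSK k)
        obtain ⟨g4, g5⟩ := hcon _ g1
        refine (hL₀ L a3 Exc hExc (base k) g4 g5 z x h1 h2).trans (le_of_eq ?_)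
        refine sum_congr (by congr!) fun s hs => prod_congr rfl fun p hp => ?_
        rw [mem_filter, mem_powerset] at hs
        have h3 := hs.1 hp
        unfold SP at h3
        rw [mem_filter] at h3
        have h4 : p.Prime ∧ p ∉ Bs := ⟨h3.2.1, h3.2.2.2⟩
        rw [if_pos h4, (hrho k (hSK k) p h4.1 h4.2).1])
      𝒜 N (Y ^ (1 / 10 : ℝ)) (by linarith) (Real.rpow_nonneg hY0.le _) le_rfl
      (by
        intro T s hT1 hT2
        have h1 := hcnt T (fun p => ((s p : ↥𝒮) : ℤ[X])) (fun p _ => hSK (s p)) hT1 hT2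
        refine le_trans (le_of_eq ?_) h1
        have h2 : 𝒜.filter (fun a => ∀ p ∈ T, p ∉ Bs ∧ (p : ℤ) ∣ ((s p : ↥𝒮) : ℤ[X]).eval a) =
            𝒜.filter (fun a => ∀ p ∈ T, (p : ℤ) ∣ ((s p : ↥𝒮) : ℤ[X]).eval a) := by
          refine filter_congr fun a _ => forall₂_congr fun p hp => ?_
          exact and_iff_right (hT2 p hp).2.2
        have h3 : ∏ p ∈ T, (if p.Prime ∧ p ∉ Bs then (rho ((s p : ↥𝒮) : ℤ[X]) p : ℝ) / p else 0) =
            ∏ p ∈ T, (rho ((s p : ↥𝒮) : ℤ[X]) p : ℝ) / p := by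
          refine prod_congr rfl fun p hp => ?_
          rw [if_pos ⟨(hT2 p hp).1, (hT2 p hp).2.2⟩]
        rw [← h2, ← h3]
        congr!)
    exact hfin a ha (fun k hk => by
      obtain ⟨p, hp1, _, hp3, _, hp5⟩ := hcv ⟨k, hk⟩
      exact ⟨p, hp1, hp3, hp5.2⟩)

end Pool.Agent.TH532.CP
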