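import Pool.Agent.H474R2.GE.FA
import Pool.Agent.H474R2.PG.Final
import Pool.Agent.TH532.CP.Col

set_option autoImplicit false

/-! # Preparations: growth, irreducible factors, the sieve product of a colour -/

namespace Pool.Agent.TH532.CP

open Polynomial Finset Filter
open Pool.Agent.H474R2.PG (rho PR Sg rho_le rho_le_self PR_prime growth)
open Pool.Agent.H474R2.PG.RoughAux (mem_PR)

/-- growth in both directions -/
theorem growth_abs (f : ℤ[X]) (hd : 0 < f.natDegree) :
    ∃ x₀ : ℤ, ∀ x : ℤ, x₀ ≤ |x| → |x| ≤ 2 * |f.eval x| := by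
  -- one direction
  have one : ∀ h : ℤ[X], 0 < h.natDegree → ∃ x₀ : ℤ, ∀ x : ℤ, x₀ ≤ x → x ≤ 2 * |h.eval x| := by
    intro h hh
    have h0 : h.leadingCoeff ≠ 0 := by
      rw [Ne, leadingCoeff_eq_zero]
      rintro rfl
      simp at hh
    rcases lt_or_gt_of_ne h0 with h1 | h1
    · obtain ⟨x₀, hx⟩ := growth (-h) (by rwa [natDegree_neg]) (by rw [leadingCoeff_neg]; linarith)
      refine ⟨x₀, fun x hxx => (hx x hxx).trans ?_⟩
      rw [eval_neg]
      have := neg_le_abs (h.eval x)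
      linarith
    · obtain ⟨x₀, hx⟩ := growth h hh h1
      refine ⟨x₀, fun x hxx => (hx x hxx).trans ?_⟩
      have := le_abs_self (h.eval x)
      linarith
  obtain ⟨x₁, h1⟩ := one f hd
  obtain ⟨x₂, h2⟩ := one (f.comp (-X)) (by rw [natDegree_comp, natDegree_neg, natDegree_X, mul_one]
                                           exact hd)
  refine ⟨max x₁ x₂, fun x hx => ?_⟩
  rcases le_total 0 x with hx0 | hx0
  · rw [abs_of_nonneg hx0] at hx ⊢
    exact h1 x ((le_max_left _ _).trans hx)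
  · rw [abs_of_nonpos hx0] at hx ⊢
    have := h2 (-x) ((le_max_right _ _).trans hx)
    rwa [eval_comp, eval_neg, eval_X, neg_neg] at this

/-- a nonconstant integer polynomial has a nonconstant irreducible factor -/
theorem exists_factor (f : ℤ[X]) (hd : 0 < f.natDegree) :
    ∃ g : ℤ[X], Irreducible g ∧ 0 < g.natDegree ∧ g ∣ f := by
  have h1 : 0 < f.primPart.natDegree := by rwa [natDegree_primPart]
  have h2 : ¬ IsUnit f.primPart := by
    intro h
    have := natDegree_eq_zero_of_isUnit h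
    omega
  obtain ⟨g, hg, hgf⟩ := WfDvdMonoid.exists_irreducible_factor h2 (primPart_ne_zero f)
  refine ⟨g, hg, ?_, hgf.trans (primPart_dvd f)⟩
  by_contra h3
  have h4 : g.natDegree = 0 := by omega
  rw [natDegree_eq_zero] at h4
  obtain ⟨r, rfl⟩ := h4
  have h5 := (isPrimitive_primPart f) r hgf
  exact hg.not_isUnit (isUnit_C.2 h5)

/-- constants for a finite set of polynomials -/
theorem consts' (G : Finset ℤ[X]) (hG : ∀ g ∈ G, Irreducible g ∧ 0 < g.natDegree) :
    ∃ (B : ℕ) (C : ℝ), 0 ≤ C ∧ ∀ g ∈ G,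
      (∀ p : ℕ, p.Prime → B < p → rho g p ≤ g.natDegree) ∧
      ∀ w : ℝ, 3 ≤ w → |Sg (rho g) w - Real.log (Real.log w)| ≤ C := by
  classical
  induction G using Finset.induction_on with
  | empty => exact ⟨0, 0, le_rfl, fun g hg => absurd hg (notMem_empty g)⟩
  | insert g G hgG ih =>
    obtain ⟨B, C, hC, h⟩ := ih (fun k hk => hG k (mem_insert_of_mem hk))
    obtain ⟨hg1, hg2⟩ := hG g (mem_insert_self g G)
    obtain ⟨B', hB'⟩ := rho_le g hg1.ne_zero
    obtain ⟨C', hC', hM⟩ := Pool.Agent.H474R2.GE.mertens_rho g hg1 hg2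
    refine ⟨max B B', max C C', le_max_of_le_left hC, fun k hk => ?_⟩
    rcases mem_insert.1 hk with rfl | hk
    · exact ⟨fun p hp hpB => hB' p hp ((le_max_right _ _).trans_lt hpB),
        fun w hw => (hM w hw).trans (le_max_right _ _)⟩
    · exact ⟨fun p hp hpB => (h k hk).1 p hp ((le_max_left _ _).trans_lt hpB),
        fun w hw => ((h k hk).2 w hw).trans (le_max_left _ _)⟩

/-- `exp (∑_{p ∣ a} 1/p) ≤ a / φ(a)` -/
lemma exp_sum_le (a : ℕ) (ha : a ≠ 0) :
    Real.exp (∑ p ∈ a.primeFactors, 1 / (p : ℝ)) ≤ (a : ℝ) / (Nat.totient a : ℝ) := by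
  have h1 : ((Nat.totient a : ℝ)) = a * ∏ p ∈ a.primeFactors, (1 - (p : ℝ)⁻¹) := by
    have h := congrArg (fun q : ℚ => (q : ℝ)) (Nat.totient_eq_mul_prod_factors a)
    push_cast at h
    exact h
  have ha0 : (0 : ℝ) < a := by exact_mod_cast Nat.pos_of_ne_zero ha
  have hp : ∀ p ∈ a.primeFactors, 0 < 1 - (p : ℝ)⁻¹ := by
    intro p hp
    have h2 : (2 : ℝ) ≤ p := by exact_mod_cast (Nat.prime_of_mem_primeFactors hp).two_le
    have h3 : (p : ℝ)⁻¹ ≤ 2⁻¹ := inv_anti₀ (by norm_num) h2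
    linarith
  have hprod : 0 < ∏ p ∈ a.primeFactors, (1 - (p : ℝ)⁻¹) := prod_pos hp
  rw [h1, le_div_iff₀ (by positivity), Real.exp_sum, mul_left_comm, ← prod_mul_distrib]
  have h4 : ∏ p ∈ a.primeFactors, (Real.exp (1 / (p : ℝ)) * (1 - (p : ℝ)⁻¹)) ≤ 1 := by
    refine prod_le_one (fun p hpp => mul_nonneg (Real.exp_pos _).le (hp p hpp).le)
      fun p hpp => ?_
    have h5 := Real.add_one_le_exp (-(p : ℝ)⁻¹)
    have h6 : Real.exp (1 / (p : ℝ)) * Real.exp (-(p : ℝ)⁻¹) = 1 := by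
      rw [← Real.exp_add]
      simp
    calc Real.exp (1 / (p : ℝ)) * (1 - (p : ℝ)⁻¹) ≤
          Real.exp (1 / (p : ℝ)) * Real.exp (-(p : ℝ)⁻¹) := by
            apply mul_le_mul_of_nonneg_left _ (Real.exp_pos _).le
            linarith
      _ = 1 := h6
  calc (a : ℝ) * ∏ p ∈ a.primeFactors, (Real.exp (1 / (p : ℝ)) * (1 - (p : ℝ)⁻¹)) ≤ a * 1 := by
        gcongr
    _ = a := mul_one _

lemma one_le_ratio (a : ℕ) (ha : a ≠ 0) : 1 ≤ (a : ℝ) / (Nat.totient a : ℝ) := by
  have h := exp_sum_le a ha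
  refine le_trans ?_ h
  exact Real.one_le_exp (sum_nonneg fun p _ => by positivity)

/-- the sieve product of a colour -/
theorem prod_col_le (g : ℤ[X]) (hg : Irreducible g) (hd : 0 < g.natDegree) (e B : ℕ) (C : ℝ)
    (he : g.natDegree ≤ e) (hB : ∀ p : ℕ, p.Prime → B < p → rho g p ≤ g.natDegree)
    (hC : ∀ w : ℝ, 3 ≤ w → |Sg (rho g) w - Real.log (Real.log w)| ≤ C) (a b : ℤ) (ha : a ≠ 0)
    (w : ℝ) (hw : 3 ≤ w) :
    ∏ p ∈ PR w, (1 - (rho (col g a b) p : ℝ) / p) ≤
      Real.exp (C + B) / Real.log w * ((a.natAbs : ℝ) / Nat.totient a.natAbs) ^ e := by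
  classical
  have hlw : 0 < Real.log w := Real.log_pos (by linarith)
  have hna : a.natAbs ≠ 0 := Int.natAbs_ne_zero.2 ha
  set k := col g a b with hk
  have h1 : ∏ p ∈ PR w, (1 - (rho k p : ℝ) / p) ≤ Real.exp (-(Sg (rho k) w)) := by
    unfold Sg
    rw [← sum_neg_distrib, Real.exp_sum]
    refine prod_le_prod (fun p hp => ?_) (fun p hp => ?_)
    · have hp0 : (0 : ℝ) < p := by exact_mod_cast (PR_prime hp).pos
      have h2 : (rho k p : ℝ) ≤ p := by exact_mod_cast rho_le_self k p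
      have : (rho k p : ℝ) / p ≤ 1 := by rw [div_le_one hp0]; exact h2
      linarith
    · have := Real.add_one_le_exp (-((rho k p : ℝ) / p))
      linarith
  have h2 : Sg (rho g) w - (B + e * ∑ p ∈ a.natAbs.primeFactors, 1 / (p : ℝ)) ≤ Sg (rho k) w := by
    have h3 : Sg (rho g) w ≤ Sg (rho k) w +
        ∑ p ∈ (PR w).filter (fun p : ℕ => (p : ℤ) ∣ a), (rho g p : ℝ) / p := by
      unfold Sg
      rw [sum_filter, ← sum_add_distrib]
      refine sum_le_sum fun p hp => ?_
      split_ifs with h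
      · have : 0 ≤ (rho k p : ℝ) / p := by positivity
        linarith
      · rw [hk, rho_col g hg hd a b p (PR_prime hp) h, add_zero]
    have h4 : ∑ p ∈ (PR w).filter (fun p : ℕ => (p : ℤ) ∣ a), (rho g p : ℝ) / p ≤
        ∑ _p ∈ Icc 1 B, (1 : ℝ) + ∑ p ∈ a.natAbs.primeFactors, (e : ℝ) * (1 / (p : ℝ)) := by
      rw [← sum_filter_add_sum_filter_not ((PR w).filter (fun p : ℕ => (p : ℤ) ∣ a))
        (fun p => p ≤ B)]
      refine add_le_add ?_ ?_
      · refine le_trans (b := ∑ _p ∈ ((PR w).filter (fun p : ℕ => (p : ℤ) ∣ a)).filter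
          (fun p => p ≤ B), (1 : ℝ)) (sum_le_sum fun p hp => ?_)
          (sum_le_sum_of_subset_of_nonneg (fun p hp => ?_) fun _ _ _ => zero_le_one)
        · rw [mem_filter, mem_filter] at hp
          have hp0 : (0 : ℝ) < p := by exact_mod_cast (PR_prime hp.1.1).pos
          rw [div_le_one hp0]
          exact_mod_cast rho_le_self g p
        · rw [mem_filter, mem_filter] at hp
          exact mem_Icc.2 ⟨(PR_prime hp.1.1).one_lt.le, hp.2⟩
      · refine le_trans (b := ∑ p ∈ ((PR w).filter (fun p : ℕ => (p : ℤ) ∣ a)).filter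
          (fun p => ¬ p ≤ B), (e : ℝ) * (1 / (p : ℝ))) (sum_le_sum fun p hp => ?_)
          (sum_le_sum_of_subset_of_nonneg (fun p hp => ?_) fun _ _ _ => by positivity)
        · rw [mem_filter, mem_filter] at hp
          have hp0 : (0 : ℝ) < p := by exact_mod_cast (PR_prime hp.1.1).pos
          have h5 : (rho g p : ℝ) ≤ e := by
            exact_mod_cast (hB p (PR_prime hp.1.1) (not_le.1 hp.2)).trans he
          rw [mul_one_div]
          exact div_le_div_of_nonneg_right h5 hp0.le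
        · rw [mem_filter, mem_filter] at hp
          rw [Nat.mem_primeFactors]
          exact ⟨PR_prime hp.1.1, Int.natCast_dvd.1 hp.1.2, hna⟩
    rw [sum_const, Nat.card_Icc, nsmul_eq_mul, mul_one, Nat.add_sub_cancel, ← mul_sum] at h4
    linarith
  have h3 := (abs_le.1 (hC w hw)).1
  calc ∏ p ∈ PR w, (1 - (rho k p : ℝ) / p) ≤ Real.exp (-(Sg (rho k) w)) := h1
    _ ≤ Real.exp ((C + B) + -Real.log (Real.log w) +
        e * ∑ p ∈ a.natAbs.primeFactors, 1 / (p : ℝ)) := by
        apply Real.exp_le_exp.2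
        linarith
    _ = Real.exp (C + B) / Real.log w *
        (Real.exp (∑ p ∈ a.natAbs.primeFactors, 1 / (p : ℝ))) ^ e := by
        rw [Real.exp_add, Real.exp_add, Real.exp_neg, Real.exp_log hlw, Real.exp_nat_mul,
          div_eq_mul_inv]
    _ ≤ _ := by
        gcongr
        exact exp_sum_le _ hna

end Pool.Agent.TH532.CP
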