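import Pool.Agent.TH532.CP.CoverF
import Pool.Agent.TH532.CP.Prep

set_option autoImplicit false

/-! # Composite values of polynomials at families of affine images -/

namespace Pool.Agent.TH532.CP

open Polynomial Finset Filter
open Pool.Agent.H474R2.PG (rho PR Sg)

open scoped Classical Nat

/-- the integers `n` with `|a n + b| ≤ R` -/
noncomputable def badN (R a b : ℤ) : Finset ℤ := (Icc (-R) R).image (fun m => (m - b) / a)

lemma mem_badN (R a b n : ℤ) (ha : a ≠ 0) (h : |a * n + b| ≤ R) : n ∈ badN R a b := by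
  unfold badN
  rw [mem_image]
  refine ⟨a * n + b, mem_Icc.2 (abs_le.1 h), ?_⟩
  rw [add_sub_cancel_right]
  exact Int.mul_ediv_cancel_left n ha

lemma card_badN (R a b : ℤ) (hR : 0 ≤ R) : ((badN R a b).card : ℝ) ≤ 2 * R + 1 := by
  have h1 : (badN R a b).card ≤ (Icc (-R) R).card := card_image_le
  rw [Int.card_Icc] at h1
  have h2 : ((R + 1 - -R).toNat : ℤ) = 2 * R + 1 := by
    rw [Int.toNat_of_nonneg (by omega)]
    ring
  have h3 : ((badN R a b).card : ℤ) ≤ 2 * R + 1 := by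
    rw [← h2]
    exact_mod_cast h1
  exact_mod_cast h3

lemma ev_bad (K : ℝ) : ∀ᶠ L : ℝ in atTop,
    L ^ 2 * (4 * Real.exp (L ^ (1 / 20 : ℝ)) + K) ≤ Real.exp (1 / 20 * L) := by
  have e1 : ∀ᶠ L : ℝ in atTop, L ^ (1 / 20 : ℝ) ≤ L / 100 := by
    filter_upwards [(tendsto_rpow_atTop (show (0:ℝ) < 19 / 20 by norm_num)).eventually_ge_atTop
      (100 : ℝ), eventually_ge_atTop (1:ℝ)] with L hL hL1
    have h1 : L = L ^ (1 / 20 : ℝ) * L ^ (19 / 20 : ℝ) := by
      rw [← Real.rpow_add (by linarith)]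
      norm_num
    have h2 : 0 ≤ L ^ (1 / 20 : ℝ) := Real.rpow_nonneg (by linarith) _
    nlinarith
  have e2 : ∀ᶠ L : ℝ in atTop, L ^ 2 * (4 + |K|) ≤ Real.exp (1 / 25 * L) := by
    have h1 : Tendsto (fun L : ℝ => Real.exp (1 / 25 * L) / L ^ 2) atTop atTop := by
      have h2 : Tendsto (fun x : ℝ => Real.exp x / x ^ 2) atTop atTop :=
        Real.tendsto_exp_div_pow_atTop 2
      have h3 : Tendsto (fun L : ℝ => 1 / 25 * L) atTop atTop :=
        tendsto_id.const_mul_atTop (by norm_num)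
      have h4 := (h2.comp h3).const_mul_atTop (show (0:ℝ) < 1 / 625 by norm_num)
      refine h4.congr fun L => ?_
      simp only [Function.comp]
      ring
    filter_upwards [h1.eventually_ge_atTop (4 + |K|), eventually_ge_atTop (1:ℝ)] with L hL hL1
    rw [le_div_iff₀ (by positivity)] at hL
    linarith
  filter_upwards [e1, e2, eventually_ge_atTop (1:ℝ)] with L h1 h2 h3
  have h4 : 1 ≤ Real.exp (1 / 100 * L) := Real.one_le_exp (by positivity)
  have h5 : Real.exp (L ^ (1 / 20 : ℝ)) ≤ Real.exp (1 / 100 * L) :=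
    Real.exp_le_exp.2 (by linarith)
  have h6 : K ≤ |K| * Real.exp (1 / 100 * L) :=
    (le_abs_self K).trans (le_mul_of_one_le_right (abs_nonneg K) h4)
  calc L ^ 2 * (4 * Real.exp (L ^ (1 / 20 : ℝ)) + K) ≤
        L ^ 2 * (4 * Real.exp (1 / 100 * L) + |K| * Real.exp (1 / 100 * L)) := by gcongr
    _ = (L ^ 2 * (4 + |K|)) * Real.exp (1 / 100 * L) := by ring
    _ ≤ Real.exp (1 / 25 * L) * Real.exp (1 / 100 * L) := by gcongr
    _ = Real.exp (1 / 20 * L) := by rw [← Real.exp_add]; congr 1; ring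

/-- the size of the resultants -/
lemma ev_res (e : ℕ) (V : ℝ) (hV : 1 ≤ V) : ∃ L₀ : ℝ, ∀ L : ℝ, L₀ ≤ L → ∀ D : ℕ,
    Real.log ((2 * e)! * (V * (3 * Real.exp (L ^ D)) ^ e) ^ (2 * e)) ≤ L ^ (D + 2) := by
  set K : ℝ := Real.log (2 * e)! + 2 * e * (Real.log V + e * Real.log 3) + 2 * e * e with hK
  refine ⟨max 1 (|K| + 1), fun L hL D => ?_⟩
  have h1 : 1 ≤ L := (le_max_left _ _).trans hL
  have h2 : |K| + 1 ≤ L := (le_max_right _ _).trans hL
  have hLD : 1 ≤ L ^ D := one_le_pow₀ h1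
  have hV0 : 0 < V := by linarith
  have hf : (0 : ℝ) < (2 * e)! := by exact_mod_cast Nat.factorial_pos _
  have hlf : 0 ≤ Real.log (2 * e)! := Real.log_natCast_nonneg _
  have hlV : 0 ≤ Real.log V := Real.log_nonneg hV
  have hl3 : 0 ≤ Real.log 3 := Real.log_nonneg (by norm_num)
  rw [Real.log_mul hf.ne' (by positivity), Real.log_pow,
    Real.log_mul hV0.ne' (by positivity), Real.log_pow, Real.log_mul (by norm_num)
      (Real.exp_pos _).ne', Real.log_exp]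
  push_cast
  have h3 : Real.log (2 * e)! + 2 * e * (Real.log V + e * (Real.log 3 + L ^ D)) ≤ K * L ^ D := by
    rw [hK]
    have e1 : Real.log (2 * e)! ≤ Real.log (2 * e)! * L ^ D := le_mul_of_one_le_right hlf hLD
    have e2 : 2 * e * (Real.log V + e * Real.log 3) ≤
        2 * e * (Real.log V + e * Real.log 3) * L ^ D :=
      le_mul_of_one_le_right (by positivity) hLD
    linarith
  have h4 : K ≤ L ^ 2 := by
    have := le_abs_self K
    nlinarith
  calc _ ≤ K * L ^ D := h3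
    _ ≤ L ^ 2 * L ^ D := by gcongr
    _ = L ^ (D + 2) := by ring

/-- composite values of polynomials at families of affine images -/
theorem main (F : Finset ℤ[X]) (e : ℕ) (hF : ∀ f ∈ F, 0 < f.natDegree ∧ f.natDegree ≤ e) (D : ℕ) :
    ∃ c : ℝ, 0 < c ∧ ∃ Y₀ : ℝ, ∀ Y : ℝ, Y₀ ≤ Y → ∀ M : ℤ, ∀ 𝒯 : Finset (ℤ[X] × ℤ × ℤ),
    (∀ t ∈ 𝒯, t.1 ∈ F ∧ t.2.1 ≠ 0 ∧ |(t.2.1 : ℝ)| ≤ Real.exp (Real.log Y ^ D) ∧
      |(t.2.2 : ℝ)| ≤ Real.exp (Real.log Y ^ D)) →
    ∑ t ∈ 𝒯, ((t.2.1.natAbs : ℝ) / Nat.totient t.2.1.natAbs) ^ e ≤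
      c * Real.log Y * Real.log (Real.log Y) →
    ∃ n : ℤ, M < n ∧ (n : ℝ) ≤ M + Y ∧ ∀ t ∈ 𝒯, ∃ p : ℕ, p.Prime ∧
      (p : ℝ) ≤ Real.exp (Real.log Y ^ (1 / 20 : ℝ)) ∧
      (p : ℤ) ∣ t.1.eval (t.2.1 * n + t.2.2) ∧ (p : ℤ) < |t.1.eval (t.2.1 * n + t.2.2)| := by
  -- irreducible factors
  choose! fac hfac1 hfac2 hfac3 using fun (f : ℤ[X]) (hf : f ∈ F) => exists_factor f (hF f hf).1
  set G : Finset ℤ[X] := F.image fac with hG
  have hG1 : ∀ g ∈ G, Irreducible g ∧ 0 < g.natDegree := by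
    intro g hg
    rw [hG, mem_image] at hg
    obtain ⟨f, hf, rfl⟩ := hg
    exact ⟨hfac1 f hf, hfac2 f hf⟩
  have hGdeg : ∀ f ∈ F, (fac f).natDegree ≤ e := by
    intro f hf
    refine le_trans (natDegree_le_of_dvd (hfac3 f hf) ?_) (hF f hf).2
    rintro rfl
    have := (hF 0 hf).1
    simp at this
  obtain ⟨c₀, hc₀, Y₁, hcov⟩ := cover_family G hG1 (D + 2)
  obtain ⟨B, C, hC, hcon⟩ := consts' G hG1
  -- growth
  have hgr : ∃ x₀ : ℤ, 0 ≤ x₀ ∧ ∀ f ∈ F, ∀ x : ℤ, x₀ ≤ |x| → |x| ≤ 2 * |f.eval x| := by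
    choose! x₀ hx₀ using fun (f : ℤ[X]) (hf : f ∈ F) => growth_abs f (hF f hf).1
    refine ⟨∑ f ∈ F, |x₀ f|, sum_nonneg fun _ _ => abs_nonneg _, fun f hf x hx => ?_⟩
    refine hx₀ f hf x (le_trans ?_ hx)
    exact (le_abs_self _).trans (single_le_sum (f := fun f => |x₀ f|)
      (fun _ _ => abs_nonneg _) hf)
  obtain ⟨x₀, hx₀0, hx₀⟩ := hgr
  set V : ℤ := 1 + ∑ g ∈ G, nrm g with hV
  have hnrm : ∀ g : ℤ[X], 0 ≤ nrm g := fun g => sum_nonneg fun _ _ => abs_nonneg _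
  have hV1 : 1 ≤ V := by
    have : 0 ≤ ∑ g ∈ G, nrm g := sum_nonneg fun g _ => hnrm g
    omega
  have hVg : ∀ g ∈ G, nrm g ≤ V := by
    intro g hg
    have := single_le_sum (f := nrm) (fun g _ => hnrm g) hg
    omega
  obtain ⟨L₁, hL₁⟩ := ev_res e V (by exact_mod_cast hV1)
  set c : ℝ := min 1 (c₀ / (2 * Real.exp (C + B))) with hc
  have hc1 : c ≤ 1 := min_le_left _ _
  have hc2 : c ≤ c₀ / (2 * Real.exp (C + B)) := min_le_right _ _
  have hcpos : 0 < c := lt_min one_pos (by positivity)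
  refine ⟨c, hcpos, ?_⟩
  have t1 : Tendsto (fun Y : ℝ => Real.log Y) atTop atTop := Real.tendsto_log_atTop
  have key : ∀ᶠ Y : ℝ in atTop, (Y₁ ≤ Y ∧ 1 ≤ Y) ∧ (L₁ ≤ Real.log Y ∧ 10000 ≤ Real.log Y) ∧
      Real.log Y ^ 2 * (4 * Real.exp (Real.log Y ^ (1 / 20 : ℝ)) + (2 * x₀ + 5)) ≤
        Real.exp (1 / 20 * Real.log Y) := by
    filter_upwards [eventually_ge_atTop Y₁, eventually_ge_atTop (1:ℝ),
      t1.eventually_ge_atTop L₁, t1.eventually_ge_atTop (10000 : ℝ),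
      t1.eventually (ev_bad (2 * x₀ + 5))] with Y a1 a2 a3 a4 a5
    exact ⟨⟨a1, a2⟩, ⟨a3, a4⟩, a5⟩
  obtain ⟨Y₀, hY₀⟩ := eventually_atTop.mp key
  refine ⟨Y₀, fun Y hY M 𝒯 h𝒯 hsum => ?_⟩
  obtain ⟨⟨a1, a2⟩, ⟨a3, a4⟩, a5⟩ := hY₀ Y hY
  have hY0 : 0 < Y := by linarith
  set L : ℝ := Real.log Y with hL
  set l : ℝ := Real.log L with hl
  have hLpos : 0 < L := by linarith
  have hl0 : 0 < l := Real.log_pos (by linarith)
  have hlL : l ≤ L := (Real.log_le_sub_one_of_pos hLpos).trans (by linarith)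
  have hLD : 1 ≤ L ^ D := one_le_pow₀ (by linarith)
  -- the number of forms
  have hTcard : (𝒯.card : ℝ) ≤ L ^ 2 := by
    calc (𝒯.card : ℝ) = ∑ _t ∈ 𝒯, (1 : ℝ) := by rw [sum_const, nsmul_eq_mul, mul_one]
      _ ≤ ∑ t ∈ 𝒯, ((t.2.1.natAbs : ℝ) / Nat.totient t.2.1.natAbs) ^ e :=
          sum_le_sum fun t ht => one_le_pow₀ (one_le_ratio _ (Int.natAbs_ne_zero.2 (h𝒯 t ht).2.1))
      _ ≤ c * L * l := hsum
      _ ≤ 1 * L * L := by gcongr
      _ = L ^ 2 := by ring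
  -- the colours
  set kk : ℤ[X] × ℤ × ℤ → ℤ[X] := fun t => col (fac t.1) t.2.1 t.2.2 with hkk
  set 𝒦 : Finset ℤ[X] := 𝒯.image kk with h𝒦
  choose! rep hrep1 hrep2 using fun (k : ℤ[X]) (hk : k ∈ 𝒦) => mem_image.1 hk
  have hinj : Set.InjOn rep (𝒦 : Set ℤ[X]) := by
    intro k hk k' hk' h
    rw [← hrep2 k hk, ← hrep2 k' hk', h]
  have hKcard : (𝒦.card : ℝ) ≤ L ^ 2 := by
    refine le_trans ?_ hTcard
    exact_mod_cast card_image_le
  -- the sets of bad arguments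
  set R : ℤ := 2 * ⌈Real.exp (L ^ (1 / 20 : ℝ))⌉ + x₀ with hR
  have hR1 : (R : ℝ) ≤ 2 * Real.exp (L ^ (1 / 20 : ℝ)) + 2 + x₀ := by
    rw [hR]
    push_cast
    have := Int.ceil_lt_add_one (Real.exp (L ^ (1 / 20 : ℝ)))
    linarith
  have hR2 : 2 * Real.exp (L ^ (1 / 20 : ℝ)) ≤ R := by
    rw [hR]
    push_cast
    have := Int.le_ceil (Real.exp (L ^ (1 / 20 : ℝ)))
    have : (0 : ℝ) ≤ x₀ := by exact_mod_cast hx₀0
    linarith
  have hR0 : 0 ≤ R := by
    have : (0 : ℝ) ≤ R := le_trans (by positivity) hR2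
    exact_mod_cast this
  have hRx : x₀ ≤ R := by
    have : 0 ≤ ⌈Real.exp (L ^ (1 / 20 : ℝ))⌉ := Int.ceil_nonneg (Real.exp_pos _).le
    omega
  set Bad : Finset ℤ := 𝒯.biUnion (fun t => badN R t.2.1 t.2.2) with hBad
  have hBadc : (Bad.card : ℝ) ≤ Y ^ (1 / 20 : ℝ) := by
    calc (Bad.card : ℝ) ≤ ((∑ t ∈ 𝒯, (badN R t.2.1 t.2.2).card : ℕ) : ℝ) := by
          exact_mod_cast card_biUnion_le
      _ = ∑ t ∈ 𝒯, ((badN R t.2.1 t.2.2).card : ℝ) := by push_cast; rfl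
      _ ≤ ∑ _t ∈ 𝒯, (2 * (R : ℝ) + 1) := sum_le_sum fun t _ => card_badN R _ _ hR0
      _ = 𝒯.card * (2 * (R : ℝ) + 1) := by rw [sum_const, nsmul_eq_mul]
      _ ≤ L ^ 2 * (4 * Real.exp (L ^ (1 / 20 : ℝ)) + (2 * x₀ + 5)) := by
          have h0 : (0 : ℝ) ≤ R := by exact_mod_cast hR0
          have h1 : 2 * (R : ℝ) + 1 ≤ 4 * Real.exp (L ^ (1 / 20 : ℝ)) + (2 * x₀ + 5) := by
            linarith
          exact mul_le_mul hTcard h1 (by positivity) (by positivity)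
      _ ≤ Real.exp (1 / 20 * L) := a5
      _ = Y ^ (1 / 20 : ℝ) := by rw [Real.rpow_def_of_pos hY0, mul_comm, hL]
  -- the coefficients
  set E : ℤ := ⌈2 * Real.exp (L ^ D)⌉ with hE
  have hexp1 : 1 ≤ Real.exp (L ^ D) := Real.one_le_exp (by positivity)
  have hE2 : 2 * Real.exp (L ^ D) ≤ E := Int.le_ceil _
  have hE3 : (E : ℝ) ≤ 3 * Real.exp (L ^ D) := by
    have := Int.ceil_lt_add_one (2 * Real.exp (L ^ D))
    linarith
  have hE1 : 1 ≤ E := by
    have : (1 : ℝ) ≤ E := by linarith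
    exact_mod_cast this
  have hcoef : ∀ t ∈ 𝒯, ∀ i, |(kk t).coeff i| ≤ V * E ^ e := by
    intro t ht i
    obtain ⟨b1, b2, b3, b4⟩ := h𝒯 t ht
    have hab : |t.2.1| + |t.2.2| ≤ E := by
      have : ((|t.2.1| + |t.2.2| : ℤ) : ℝ) ≤ E := by
        push_cast
        linarith
      exact_mod_cast this
    have hg : fac t.1 ∈ G := mem_image_of_mem _ b1
    calc |(kk t).coeff i| ≤ nrm (fac t.1) * E ^ (fac t.1).natDegree :=
          coeff_col_le _ (hG1 _ hg).2 _ _ _ b2 hab hE1 i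
      _ ≤ V * E ^ e := by
          apply mul_le_mul (hVg _ hg) (pow_le_pow_right₀ hE1 (hGdeg _ b1)) (by positivity)
            (by omega)
  have hlog2 : (1 / 2 : ℝ) ≤ Real.log 2 := by
    have := Real.log_two_gt_d9
    linarith
  obtain ⟨n, hn1, hn2, hn3, hn4⟩ := hcov Y a1 M 𝒦 (fun k => fac (rep k).1)
    (fun k => (rep k).2.1.natAbs.primeFactors)
    (by
      intro k hk
      obtain ⟨b1, b2, b3, b4⟩ := h𝒯 _ (hrep1 k hk)
      have hg : fac (rep k).1 ∈ G := mem_image_of_mem _ b1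
      refine ⟨hg, ?_, fun p hp hpa => ?_⟩
      · have h1 := card_primeFactors_le (rep k).2.1 b2
        have h2 : Real.log |((rep k).2.1 : ℝ)| ≤ L ^ D := by
          rw [← Real.log_exp (L ^ D)]
          exact Real.log_le_log (abs_pos.2 (by exact_mod_cast b2)) b3
        have h3 : (0 : ℝ) ≤ (((rep k).2.1.natAbs.primeFactors).card : ℝ) := Nat.cast_nonneg _
        have h4 : (((rep k).2.1.natAbs.primeFactors).card : ℝ) ≤ 2 * L ^ D := by nlinarith
        have h5 : L ^ (D + 2) = L ^ 2 * L ^ D := by ring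
        have h6 : (2 : ℝ) ≤ L ^ 2 := by nlinarith
        rw [h5]
        refine h4.trans ?_
        gcongr
      · have h1 : ¬ (p : ℤ) ∣ (rep k).2.1 := by
          intro h
          apply hpa
          rw [Nat.mem_primeFactors]
          exact ⟨hp, Int.natCast_dvd.1 h, Int.natAbs_ne_zero.2 b2⟩
        have h2 := rho_col _ (hG1 _ hg).1 (hG1 _ hg).2 (rep k).2.1 (rep k).2.2 p hp h1
        have h3 : kk (rep k) = k := hrep2 k hk
        rw [← h2]
        show rho k p = rho (kk (rep k)) p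
        rw [h3])
    (by
      intro k hk k' hk' hkk'
      obtain ⟨b1, b2, b3, b4⟩ := h𝒯 _ (hrep1 k hk)
      obtain ⟨b1', b2', b3', b4'⟩ := h𝒯 _ (hrep1 k' hk')
      have hg := hG1 _ (mem_image_of_mem fac b1)
      have hg' := hG1 _ (mem_image_of_mem fac b1')
      have e1 : kk (rep k) = k := hrep2 k hk
      have e2 : kk (rep k') = k' := hrep2 k' hk'
      have hd1 : k.natDegree = (fac (rep k).1).natDegree := by
        conv_lhs => rw [← e1]
        exact col_natDegree _ _ _ b2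
      have hd2 : k'.natDegree = (fac (rep k').1).natDegree := by
        conv_lhs => rw [← e2]
        exact col_natDegree _ _ _ b2'
      have hi1 : Irreducible k := by
        rw [← e1]
        exact col_irreducible _ hg.1 hg.2 _ _ b2
      have hi2 : Irreducible k' := by
        rw [← e2]
        exact col_irreducible _ hg'.1 hg'.2 _ _ b2'
      have hna : ¬ Associated k k' := by
        intro h
        rw [← e1, ← e2] at h
        have h2 : kk (rep k) = kk (rep k') := col_eq_of_associated _ _ _ _ _ _ h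
        rw [e1, e2] at h2
        exact hkk' h2
      obtain ⟨N, hN1, hN2, hN3⟩ := res_pair k k' hi1 hi2 (by rw [hd1]; exact hg.2) hna
        (V * E ^ e) (fun i => by rw [← e1]; exact hcoef _ (hrep1 k hk) i)
        (fun i => by rw [← e2]; exact hcoef _ (hrep1 k' hk') i)
      refine ⟨N, hN1, ?_, hN3⟩
      have hH1 : 1 ≤ V * E ^ e := one_le_mul_of_one_le_of_one_le hV1 (one_le_pow₀ hE1)
      have hdd : k.natDegree + k'.natDegree ≤ 2 * e := by
        have := hGdeg _ b1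
        have := hGdeg _ b1'
        omega
      have h1 : |N| ≤ ((2 * e)! : ℤ) * (V * E ^ e) ^ (2 * e) := by
        refine hN2.trans ?_
        apply mul_le_mul _ (pow_le_pow_right₀ hH1 hdd) (by positivity) (by positivity)
        exact_mod_cast Nat.factorial_le hdd
      have h2 : |(N : ℝ)| ≤ ((2 * e)! : ℝ) * ((V : ℝ) * (3 * Real.exp (L ^ D)) ^ e) ^ (2 * e) := by
        have h3 : ((|N| : ℤ) : ℝ) ≤ ((((2 * e)! : ℤ) * (V * E ^ e) ^ (2 * e) : ℤ) : ℝ) := by
          exact_mod_cast h1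
        rw [Int.cast_abs] at h3
        refine h3.trans ?_
        push_cast
        have hV0 : (0 : ℝ) ≤ V := by
          have : (1 : ℝ) ≤ V := by exact_mod_cast hV1
          linarith
        have hE0 : (0 : ℝ) ≤ E := by linarith
        gcongr
      have h3 : 0 < |(N : ℝ)| := abs_pos.2 (by exact_mod_cast hN1)
      exact (Real.log_le_log h3 h2).trans (hL₁ L a3 D))
    hKcard
    (by
      have hw3 : (3 : ℝ) ≤ L / 100 := by linarith
      have hlw : l / 2 ≤ Real.log (L / 100) := by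
        have h1 : Real.sqrt L ≤ L / 100 := by
          rw [Real.sqrt_le_left (by linarith)]
          nlinarith
        have h2 : Real.log (Real.sqrt L) = l / 2 := by rw [Real.log_sqrt hLpos.le]
        rw [← h2]
        exact Real.log_le_log (Real.sqrt_pos.2 hLpos) h1
      have hper : ∀ k ∈ 𝒦, ∏ p ∈ PR (L / 100), (1 - (rho k p : ℝ) / p) ≤
          2 * Real.exp (C + B) / l *
            (((rep k).2.1.natAbs : ℝ) / Nat.totient (rep k).2.1.natAbs) ^ e := by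
        intro k hk
        obtain ⟨b1, b2, b3, b4⟩ := h𝒯 _ (hrep1 k hk)
        have hg : fac (rep k).1 ∈ G := mem_image_of_mem _ b1
        have e1 : kk (rep k) = k := hrep2 k hk
        have h1 := prod_col_le (fac (rep k).1) (hG1 _ hg).1 (hG1 _ hg).2 e B C (hGdeg _ b1)
          (hcon _ hg).1 (hcon _ hg).2 (rep k).2.1 (rep k).2.2 b2 (L / 100) hw3
        have h2 : col (fac (rep k).1) (rep k).2.1 (rep k).2.2 = k := e1
        rw [h2] at h1
        refine h1.trans ?_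
        have h3 : Real.exp (C + B) / Real.log (L / 100) ≤ 2 * Real.exp (C + B) / l := by
          rw [div_le_div_iff₀ (by linarith) hl0]
          have := Real.exp_pos (C + B)
          nlinarith
        gcongr
      have hsum2 : ∑ k ∈ 𝒦, (((rep k).2.1.natAbs : ℝ) / Nat.totient (rep k).2.1.natAbs) ^ e ≤
          ∑ t ∈ 𝒯, ((t.2.1.natAbs : ℝ) / Nat.totient t.2.1.natAbs) ^ e := by
        rw [← sum_image (f := fun t : ℤ[X] × ℤ × ℤ =>
          ((t.2.1.natAbs : ℝ) / Nat.totient t.2.1.natAbs) ^ e) hinj]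
        refine sum_le_sum_of_subset_of_nonneg (fun t ht => ?_) fun _ _ _ => by positivity
        rw [mem_image] at ht
        obtain ⟨k, hk, rfl⟩ := ht
        exact hrep1 k hk
      calc ∑ k ∈ 𝒦, ∏ p ∈ PR (L / 100), (1 - (rho k p : ℝ) / p) ≤
            ∑ k ∈ 𝒦, 2 * Real.exp (C + B) / l *
              (((rep k).2.1.natAbs : ℝ) / Nat.totient (rep k).2.1.natAbs) ^ e :=
            sum_le_sum hper
        _ = 2 * Real.exp (C + B) / l * ∑ k ∈ 𝒦,
              (((rep k).2.1.natAbs : ℝ) / Nat.totient (rep k).2.1.natAbs) ^ e := by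
            rw [mul_sum]
        _ ≤ 2 * Real.exp (C + B) / l * (c * L * l) := by
            gcongr
            exact hsum2.trans hsum
        _ = 2 * Real.exp (C + B) * c * L := by field_simp
        _ ≤ 2 * Real.exp (C + B) * (c₀ / (2 * Real.exp (C + B))) * L := by gcongr
        _ = c₀ * L := by field_simp)
    Bad hBadc
  refine ⟨n, hn1, hn2, fun t ht => ?_⟩
  obtain ⟨b1, b2, b3, b4⟩ := h𝒯 t ht
  obtain ⟨p, hp1, hp2, hp3⟩ := hn4 (kk t) (mem_image_of_mem _ ht)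
  have hpd : (p : ℤ) ∣ t.1.eval (t.2.1 * n + t.2.2) :=
    (col_dvd _ _ _ _ _ hp3).trans (eval_dvd (hfac3 _ b1))
  refine ⟨p, hp1, hp2, hpd, ?_⟩
  have hbig : R < |t.2.1 * n + t.2.2| := by
    by_contra h
    exact hn3 (mem_biUnion.2 ⟨t, ht, mem_badN R _ _ n b2 (not_lt.1 h)⟩)
  have h1 := hx₀ t.1 b1 (t.2.1 * n + t.2.2) (by omega)
  have h2 : (R : ℝ) < 2 * ((|t.1.eval (t.2.1 * n + t.2.2)| : ℤ) : ℝ) := by
    have : R < 2 * |t.1.eval (t.2.1 * n + t.2.2)| := by omega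
    exact_mod_cast this
  have h3 : (p : ℝ) < ((|t.1.eval (t.2.1 * n + t.2.2)| : ℤ) : ℝ) := by linarith
  exact_mod_cast h3

end Pool.Agent.TH532.CP
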